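import Pool.Agent.Lib.MPa37b3a.Gen

/-!
Half turns, boosts and bounded generation of `SO(1,p)`.
-/

open Matrix Topology

namespace Pool.Agent.Lib.MPa37b3a

attribute [local instance] Matrix.linftyOpNormedAddCommGroup Matrix.linftyOpNormedSpace

variable {p : ℕ}

/-- The bilinear form of signature `(1,p)`. -/
def form (p : ℕ) (x y : Fin (p + 1) → ℝ) : ℝ := x ⬝ᵥ (gram p *ᵥ y)

theorem form_eq (x y : Fin (p + 1) → ℝ) :
    form p x y = x 0 * y 0 - ∑ i : Fin p, x i.succ * y i.succ := by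
  simp only [form, dotProduct, Fin.sum_univ_succ, gram, Matrix.mulVec_diagonal]
  simp [Fin.succ_ne_zero, Finset.sum_neg_distrib, sub_eq_add_neg]

theorem form_mat (A : SOone p) (x y : Fin (p + 1) → ℝ) :
    form p (mat A *ᵥ x) (mat A *ᵥ y) = form p x y := by
  unfold form
  conv_rhs => rw [← mat_form A]
  rw [Matrix.mulVec_mulVec, Matrix.dotProduct_mulVec, Matrix.vecMul_mulVec,
    ← Matrix.dotProduct_mulVec]
  rw [Matrix.mul_assoc]

/-- The half turn about `m`. -/
def halfTurn (m : Fin (p + 1) → ℝ) : Matrix (Fin (p + 1)) (Fin (p + 1)) ℝ :=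
  (2 : ℝ) • Matrix.vecMulVec m (gram p *ᵥ m) - 1

theorem halfTurn_mulVec (m x : Fin (p + 1) → ℝ) :
    halfTurn m *ᵥ x = (2 * form p m x) • m - x := by
  unfold halfTurn form
  rw [Matrix.sub_mulVec, Matrix.one_mulVec, Matrix.smul_mulVec, Matrix.vecMulVec_mulVec]
  congr 1
  ext i
  simp only [Pi.smul_apply, smul_eq_mul, MulOpposite.smul_eq_mul_unop, MulOpposite.unop_op]
  have : (gram p *ᵥ m) ⬝ᵥ x = m ⬝ᵥ (gram p *ᵥ x) := by
    rw [Matrix.dotProduct_mulVec, ← Matrix.mulVec_transpose, gram_transpose]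
  rw [this]; ring

theorem halfTurn_form (m : Fin (p + 1) → ℝ) (hm : form p m m = 1) :
    (halfTurn m)ᵀ * gram p * halfTurn m = gram p := by
  have hm' : (m ᵥ* gram p) ⬝ᵥ m = 1 := by
    rw [← Matrix.dotProduct_mulVec]; exact hm
  have e1 : (Matrix.vecMulVec m (gram p *ᵥ m))ᵀ = Matrix.vecMulVec (gram p *ᵥ m) m := by
    rw [Matrix.transpose_vecMulVec]
  have e2 : Matrix.vecMulVec (gram p *ᵥ m) m * gram p
      = Matrix.vecMulVec (gram p *ᵥ m) (gram p *ᵥ m) := by
    rw [Matrix.vecMulVec_mul, ← Matrix.mulVec_transpose, gram_transpose]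
  have e3 : gram p * Matrix.vecMulVec m (gram p *ᵥ m)
      = Matrix.vecMulVec (gram p *ᵥ m) (gram p *ᵥ m) := by
    rw [Matrix.mul_vecMulVec]
  have e4 : Matrix.vecMulVec (gram p *ᵥ m) (gram p *ᵥ m) * Matrix.vecMulVec m (gram p *ᵥ m)
      = Matrix.vecMulVec (gram p *ᵥ m) (gram p *ᵥ m) := by
    rw [Matrix.vecMulVec_mul_vecMulVec]
    have : (gram p *ᵥ m) ⬝ᵥ m = 1 := by
      rw [← hm', ← Matrix.mulVec_transpose, gram_transpose]
    rw [this, one_smul]
  unfold halfTurn
  rw [Matrix.transpose_sub, Matrix.transpose_smul, Matrix.transpose_one, e1, Matrix.sub_mul,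
    Matrix.smul_mul, e2, Matrix.one_mul, Matrix.mul_sub, Matrix.mul_one, Matrix.mul_smul,
    Matrix.sub_mul, Matrix.smul_mul, e4, e3]
  module

theorem halfTurn_det (m : Fin (p + 1) → ℝ) (hm : form p m m = 1) :
    (halfTurn m).det = (-1) ^ p := by
  have h1 : halfTurn m = -(1 - Matrix.replicateCol Unit ((2 : ℝ) • m) *
      Matrix.replicateRow Unit (gram p *ᵥ m)) := by
    unfold halfTurn
    rw [← Matrix.vecMulVec_eq Unit, Matrix.smul_vecMulVec]
    abel
  rw [h1, Matrix.det_neg, Matrix.det_one_sub_mul_comm]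
  have h2 : (Matrix.replicateRow Unit (gram p *ᵥ m) * Matrix.replicateCol Unit ((2 : ℝ) • m))
      = (Matrix.of fun _ _ => (2 : ℝ) : Matrix Unit Unit ℝ) := by
    ext i j
    rw [Matrix.mul_apply']
    have : (gram p *ᵥ m) ⬝ᵥ m = 1 := by
      rw [← hm, form, Matrix.dotProduct_mulVec, ← Matrix.mulVec_transpose, gram_transpose]
    change (gram p *ᵥ m) ⬝ᵥ ((2 : ℝ) • m) = 2
    rw [dotProduct_smul, this]; simp
  rw [h2]
  have h3 : ((1 : Matrix Unit Unit ℝ) -
      (Matrix.of fun _ _ => (2 : ℝ) : Matrix Unit Unit ℝ)).det = -1 := by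
    rw [Matrix.det_unique]
    change (1 : Matrix Unit Unit ℝ) default default - 2 = -1
    rw [Matrix.one_apply_eq]; norm_num
  rw [h3, Fintype.card_fin, pow_succ]; ring

theorem exists_mapsTo (y : Fin (p + 1) → ℝ) (hy : form p y y = 1) (hy0 : 0 < 1 + y 0) :
    ∃ B : SOone p, mat B *ᵥ (Pi.single 0 1) = y := by
  set e : Fin (p + 1) → ℝ := Pi.single 0 1 with he
  have hfe : ∀ x, form p e x = x 0 := by
    intro x
    rw [form_eq]; simp [he, Fin.succ_ne_zero]
  have hfe' : ∀ x, form p x e = x 0 := by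
    intro x
    rw [form_eq]; simp [he, Fin.succ_ne_zero]
  have hee : form p e e = 1 := by rw [hfe]; simp [he]
  set s : ℝ := Real.sqrt (2 + 2 * y 0) with hs
  have hs2 : s * s = 2 + 2 * y 0 := Real.mul_self_sqrt (by linarith)
  have hs0 : s ≠ 0 := by
    intro h
    rw [h] at hs2; linarith
  set m : Fin (p + 1) → ℝ := s⁻¹ • (y + e) with hm
  have hadd : ∀ a b c : Fin (p + 1) → ℝ, form p (a + b) c = form p a c + form p b c := by
    intro a b c; simp [form, add_dotProduct]
  have hadd' : ∀ a b c : Fin (p + 1) → ℝ, form p a (b + c) = form p a b + form p a c := by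
    intro a b c; simp [form, Matrix.mulVec_add, dotProduct_add]
  have hsm : ∀ (r : ℝ) (a b : Fin (p + 1) → ℝ), form p (r • a) b = r * form p a b := by
    intro r a b; simp [form, smul_dotProduct]
  have hsm' : ∀ (r : ℝ) (a b : Fin (p + 1) → ℝ), form p a (r • b) = r * form p a b := by
    intro r a b; simp [form, Matrix.mulVec_smul, dotProduct_smul]
  have hmm : form p m m = 1 := by
    rw [hm, hsm, hsm', hadd, hadd', hadd', hy, hfe, hfe', hee]
    field_simp
    nlinarith
  have hme : form p m e = s⁻¹ * (y 0 + 1) := by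
    rw [hfe', hm]; simp [he]
  have hform : (halfTurn m * halfTurn e)ᵀ * gram p * (halfTurn m * halfTurn e) = gram p := by
    rw [Matrix.transpose_mul]
    calc (halfTurn e)ᵀ * (halfTurn m)ᵀ * gram p * (halfTurn m * halfTurn e)
        = (halfTurn e)ᵀ * ((halfTurn m)ᵀ * gram p * halfTurn m) * halfTurn e := by
          simp only [Matrix.mul_assoc]
      _ = gram p := by rw [halfTurn_form m hmm, halfTurn_form e hee]
  have hdet : (halfTurn m * halfTurn e).det = 1 := by
    rw [Matrix.det_mul, halfTurn_det m hmm, halfTurn_det e hee, ← mul_pow]; simp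
  refine ⟨mkSO _ hform hdet, ?_⟩
  rw [mat_mkSO, ← Matrix.mulVec_mulVec, halfTurn_mulVec e e, hee, halfTurn_mulVec]
  have h2 : (2 * (1 : ℝ)) • e - e = e := by module
  rw [h2, hme, hm, smul_smul]
  have h3 : 2 * (s⁻¹ * (y 0 + 1)) * s⁻¹ = 1 := by
    field_simp
    nlinarith
  rw [h3, one_smul]; abel

/-- An element of `SO(1,p)`, `p ≥ 1`, exchanging the two sheets. -/
theorem exists_flip (hp : 1 ≤ p) : ∃ D : SOone p, mat D 0 0 = -1 ∧
    ∀ A : SOone p, mat (D * A) 0 0 = - mat A 0 0 := by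
  obtain ⟨k, rfl⟩ : ∃ k, p = k + 1 := ⟨p - 1, by omega⟩
  set d : Fin (k + 1 + 1) → ℝ := Fin.cons (-1) (Fin.cons (-1) fun _ => 1) with hd
  have hdd : ∀ i, d i * d i = 1 := by
    intro i
    refine Fin.cases ?_ (fun i => ?_) i
    · simp [hd]
    · refine Fin.cases ?_ (fun i => ?_) i <;> simp [hd]
  have hform : (Matrix.diagonal d)ᵀ * gram (k + 1) * Matrix.diagonal d = gram (k + 1) := by
    rw [Matrix.diagonal_transpose, gram, Matrix.diagonal_mul_diagonal,
      Matrix.diagonal_mul_diagonal]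
    congr 1
    ext i
    have := hdd i
    split_ifs <;> linarith
  have hdet : (Matrix.diagonal d).det = 1 := by
    rw [Matrix.det_diagonal, Fin.prod_univ_succ, Fin.prod_univ_succ]
    simp [hd]
  refine ⟨mkSO _ hform hdet, ?_, fun A => ?_⟩
  · rw [mat_mkSO]; simp [hd]
  · rw [mat_mul, mat_mkSO, Matrix.diagonal_mul]; simp [hd]

/-- Iterates of the doubling map `c ↦ 2c²-1` started at `2`. -/
def dbl : ℕ → ℝ
  | 0 => 2
  | n + 1 => 2 * (dbl n) ^ 2 - 1

theorem dbl_ge (n : ℕ) : (n : ℝ) + 2 ≤ dbl n := by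
  induction n with
  | zero => simp [dbl]
  | succ n ih =>
    have h0 : (0 : ℝ) ≤ n := Nat.cast_nonneg n
    have : (2 : ℝ) * (dbl n) ^ 2 - 1 ≥ 2 * ((n : ℝ) + 2) ^ 2 - 1 := by
      have : ((n : ℝ) + 2) ^ 2 ≤ (dbl n) ^ 2 := by gcongr
      linarith
    simp only [dbl]
    push_cast
    nlinarith

theorem mem_closure_aux (n : ℕ) : ∀ A : SOone p, 1 ≤ mat A 0 0 → mat A 0 0 ≤ dbl n →
    A ∈ Subgroup.closure {B : SOone p | |mat B 0 0| ≤ 2} := by
  induction n with
  | zero =>
    intro A h1 h2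
    apply Subgroup.subset_closure
    simp only [dbl] at h2
    change |mat A 0 0| ≤ 2
    rw [abs_le]; constructor <;> linarith
  | succ n ih =>
    intro A h1 h2
    set e : Fin (p + 1) → ℝ := Pi.single 0 1 with he
    have hfe : ∀ x, form p e x = x 0 := by
      intro x
      rw [form_eq]; simp [he, Fin.succ_ne_zero]
    have hfe' : ∀ x, form p x e = x 0 := by
      intro x
      rw [form_eq]; simp [he, Fin.succ_ne_zero]
    have hee : form p e e = 1 := by rw [hfe]; simp [he]
    set x : Fin (p + 1) → ℝ := mat A *ᵥ e with hx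
    have hx0 : x 0 = mat A 0 0 := by simp [hx, he]
    have hxx : form p x x = 1 := by rw [hx, form_mat, hee]
    set c : ℝ := mat A 0 0 with hc
    set s : ℝ := Real.sqrt (2 + 2 * c) with hs
    have hs2 : s * s = 2 + 2 * c := Real.mul_self_sqrt (by linarith)
    have hspos : 0 < s := Real.sqrt_pos.mpr (by linarith)
    set y : Fin (p + 1) → ℝ := s⁻¹ • (x + e) with hy
    have hadd : ∀ a b c : Fin (p + 1) → ℝ, form p (a + b) c = form p a c + form p b c := by
      intro a b c; simp [form, add_dotProduct]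
    have hadd' : ∀ a b c : Fin (p + 1) → ℝ, form p a (b + c) = form p a b + form p a c := by
      intro a b c; simp [form, Matrix.mulVec_add, dotProduct_add]
    have hsm : ∀ (r : ℝ) (a b : Fin (p + 1) → ℝ), form p (r • a) b = r * form p a b := by
      intro r a b; simp [form, smul_dotProduct]
    have hsm' : ∀ (r : ℝ) (a b : Fin (p + 1) → ℝ), form p a (r • b) = r * form p a b := by
      intro r a b; simp [form, Matrix.mulVec_smul, dotProduct_smul]
    have hyy : form p y y = 1 := by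
      rw [hy, hsm, hsm', hadd, hadd', hadd', hxx, hfe, hfe', hee, hx0]
      field_simp
      nlinarith
    have hy0 : y 0 = s⁻¹ * (c + 1) := by
      rw [hy]; simp [he, hx0]
    have hy0' : y 0 = s / 2 := by
      rw [hy0]; field_simp; nlinarith
    obtain ⟨B, hB⟩ := exists_mapsTo y hyy (by rw [hy0']; linarith)
    have hB0 : mat B 0 0 = s / 2 := by
      rw [← hy0', ← hB]; simp
    have hBA : mat (B⁻¹ * A) 0 0 = s / 2 := by
      have h3 : mat (B⁻¹ * A) 0 0 = form p e (mat (B⁻¹ * A) *ᵥ e) := by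
        rw [hfe]; simp [he]
      rw [h3, ← form_mat B, hB, Matrix.mulVec_mulVec, ← mat_mul, mul_inv_cancel_left, ← hx]
      rw [hy, hsm, hadd, hxx, hfe, hx0, ← hy0', hy0]
      ring
    have hle : s / 2 ≤ dbl n := by
      have h4 : 2 * (s / 2) ^ 2 - 1 ≤ 2 * (dbl n) ^ 2 - 1 := by
        have : 2 * (s / 2) ^ 2 - 1 = c := by nlinarith
        rw [this]; exact h2
      have h5 : 0 ≤ dbl n := by
        have := dbl_ge n
        have h0 : (0 : ℝ) ≤ n := Nat.cast_nonneg n
        linarith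
      nlinarith
    have hge : 1 ≤ s / 2 := by nlinarith
    have m1 := ih B (by rw [hB0]; exact hge) (by rw [hB0]; exact hle)
    have m2 := ih (B⁻¹ * A) (by rw [hBA]; exact hge) (by rw [hBA]; exact hle)
    have := Subgroup.mul_mem _ m1 m2
    simpa using this

theorem closure_bounded (hp : 1 ≤ p) (A : SOone p) :
    A ∈ Subgroup.closure {B : SOone p | |mat B 0 0| ≤ 2} := by
  have key : ∀ A : SOone p, 1 ≤ mat A 0 0 →
      A ∈ Subgroup.closure {B : SOone p | |mat B 0 0| ≤ 2} := by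
    intro A h1
    obtain ⟨n, hn⟩ := exists_nat_ge (mat A 0 0)
    refine mem_closure_aux n A h1 ?_
    have := dbl_ge n
    linarith
  have hsq : 1 ≤ (mat A 0 0) ^ 2 := by
    have h := col_eq A 0
    rw [gram_zero] at h
    have : 0 ≤ ∑ j : Fin p, (mat A j.succ 0) ^ 2 := Finset.sum_nonneg fun _ _ => sq_nonneg _
    linarith
  rcases le_or_gt 0 (mat A 0 0) with h0 | h0
  · exact key A (by nlinarith)
  · obtain ⟨D, hD, hDA⟩ := exists_flip hp
    have m1 : D ∈ Subgroup.closure {B : SOone p | |mat B 0 0| ≤ 2} := by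
      apply Subgroup.subset_closure
      change |mat D 0 0| ≤ 2
      rw [hD]; norm_num
    have m2 := key (D * A) (by rw [hDA]; nlinarith)
    have := Subgroup.mul_mem _ (Subgroup.inv_mem _ m1) m2
    simpa using this

end Pool.Agent.Lib.MPa37b3a
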