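import Pool.Agent.Lib.MPa37b3a.Lattice

/-!
Coordinate boosts, unbounded orbits, spanning by null vectors.
-/

open Matrix Topology

namespace Pool.Agent.Lib.MPa37b3a

attribute [local instance] Matrix.linftyOpNormedAddCommGroup Matrix.linftyOpNormedSpace

variable {p : ℕ}

/-- time-like basis vector -/
def e0 (p : ℕ) : Fin (p + 1) → ℝ := Pi.single 0 1

/-- space-like basis vectors -/
def es {p : ℕ} (j : Fin p) : Fin (p + 1) → ℝ := Pi.single j.succ 1

theorem form_e0 (x : Fin (p + 1) → ℝ) : form p (e0 p) x = x 0 := by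
  rw [form_eq]; simp [e0, Fin.succ_ne_zero]

theorem form_es (j : Fin p) (x : Fin (p + 1) → ℝ) : form p (es j) x = - x j.succ := by
  rw [form_eq]
  simp only [es, Pi.single_apply]
  simp [(Fin.succ_ne_zero _).symm]

theorem form_add_left (a b c : Fin (p + 1) → ℝ) :
    form p (a + b) c = form p a c + form p b c := by simp [form, add_dotProduct]

theorem form_add_right (a b c : Fin (p + 1) → ℝ) :
    form p a (b + c) = form p a b + form p a c := by
  simp [form, Matrix.mulVec_add, dotProduct_add]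

theorem form_smul_left (r : ℝ) (a b : Fin (p + 1) → ℝ) :
    form p (r • a) b = r * form p a b := by simp [form, smul_dotProduct]

theorem form_smul_right (r : ℝ) (a b : Fin (p + 1) → ℝ) :
    form p a (r • b) = r * form p a b := by simp [form, Matrix.mulVec_smul, dotProduct_smul]

theorem es_zero (j : Fin p) : es j 0 = 0 := by simp [es, (Fin.succ_ne_zero _).symm]

theorem es_succ (i j : Fin p) : es j i.succ = if i = j then 1 else 0 := by
  simp [es, Pi.single_apply]

theorem e0_zero : e0 p 0 = 1 := by simp [e0]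

theorem e0_succ (j : Fin p) : e0 p j.succ = 0 := by simp [e0]

/-- The boost in the plane of `e_0` and `e_{j+1}` with eigenvalues `2` and `1/2`. -/
theorem exists_boost (j : Fin p) : ∃ b : SOone p,
    mat b *ᵥ e0 p = (5 / 4 : ℝ) • e0 p + (3 / 4 : ℝ) • es j ∧
    mat b *ᵥ es j = (3 / 4 : ℝ) • e0 p + (5 / 4 : ℝ) • es j ∧
    ∀ i, i ≠ j → mat b *ᵥ es i = es i := by
  have hs2 : Real.sqrt 2 * Real.sqrt 2 = 2 := Real.mul_self_sqrt (by norm_num)
  set s := Real.sqrt 2 with hs
  set m : Fin (p + 1) → ℝ := (3 * s / 4) • e0 p + (s / 4) • es j with hm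
  have hm0 : m 0 = 3 * s / 4 := by simp [hm, e0_zero, es_zero]
  have hmj : m j.succ = s / 4 := by simp [hm, e0_succ, es_succ]
  have hmm : form p m m = 1 := by
    have h1 : form p m m = (3 * s / 4) * m 0 + (s / 4) * (- m j.succ) := by
      conv_lhs => rw [hm]
      rw [form_add_left, form_smul_left, form_smul_left, ← hm, form_e0, form_es]
    rw [h1, hm0, hmj]; nlinarith
  have hee : form p (e0 p) (e0 p) = 1 := by rw [form_e0, e0_zero]
  have hform : (halfTurn m * halfTurn (e0 p))ᵀ * gram p * (halfTurn m * halfTurn (e0 p))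
      = gram p := by
    rw [Matrix.transpose_mul]
    calc (halfTurn (e0 p))ᵀ * (halfTurn m)ᵀ * gram p * (halfTurn m * halfTurn (e0 p))
        = (halfTurn (e0 p))ᵀ * ((halfTurn m)ᵀ * gram p * halfTurn m) * halfTurn (e0 p) := by
          simp only [Matrix.mul_assoc]
      _ = gram p := by rw [halfTurn_form m hmm, halfTurn_form _ hee]
  have hdet : (halfTurn m * halfTurn (e0 p)).det = 1 := by
    rw [Matrix.det_mul, halfTurn_det m hmm, halfTurn_det _ hee, ← mul_pow]; simp
  have hme0 : form p m (e0 p) = 3 * s / 4 := by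
    rw [hm, form_add_left, form_smul_left, form_smul_left, form_e0, form_es, e0_zero, e0_succ]
    ring
  have hmes : form p m (es j) = - (s / 4) := by
    rw [hm, form_add_left, form_smul_left, form_smul_left, form_e0, form_es, es_zero, es_succ]
    simp
  refine ⟨mkSO _ hform hdet, ?_, ?_, ?_⟩
  · rw [mat_mkSO, ← Matrix.mulVec_mulVec, halfTurn_mulVec (e0 p), hee]
    have h2 : (2 * (1 : ℝ)) • e0 p - e0 p = e0 p := by module
    rw [h2, halfTurn_mulVec, hme0, hm]
    have e1 : (2 * (3 * s / 4)) * (3 * s / 4) - 1 = 5 / 4 := by nlinarith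
    have e2 : (2 * (3 * s / 4)) * (s / 4) = 3 / 4 := by nlinarith
    rw [← e1, ← e2]
    module
  · rw [mat_mkSO, ← Matrix.mulVec_mulVec, halfTurn_mulVec (e0 p), form_e0, es_zero]
    have h2 : (2 * (0 : ℝ)) • e0 p - es j = (-1 : ℝ) • es j := by module
    rw [h2, halfTurn_mulVec, form_smul_right, hmes, hm]
    have e1 : (2 * (-1 * -(s / 4))) * (3 * s / 4) = 3 / 4 := by nlinarith
    have e2 : (2 * (-1 * -(s / 4))) * (s / 4) + 1 = 5 / 4 := by nlinarith
    rw [← e1, ← e2]
    module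
  · intro i hij
    rw [mat_mkSO, ← Matrix.mulVec_mulVec, halfTurn_mulVec (e0 p), form_e0, es_zero]
    have h2 : (2 * (0 : ℝ)) • e0 p - es i = (-1 : ℝ) • es i := by module
    have hmi : form p m (es i) = 0 := by
      rw [hm, form_add_left, form_smul_left, form_smul_left, form_e0, form_es, es_zero, es_succ,
        if_neg (Ne.symm hij)]
      simp
    rw [h2, halfTurn_mulVec, form_smul_right, hmi]
    module

theorem boost_plus {j : Fin p} {b : SOone p}
    (h0 : mat b *ᵥ e0 p = (5 / 4 : ℝ) • e0 p + (3 / 4 : ℝ) • es j)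
    (h1 : mat b *ᵥ es j = (3 / 4 : ℝ) • e0 p + (5 / 4 : ℝ) • es j) :
    mat b *ᵥ (e0 p + es j) = (2 : ℝ) • (e0 p + es j) := by
  rw [Matrix.mulVec_add, h0, h1]; module

theorem boost_minus {j : Fin p} {b : SOone p}
    (h0 : mat b *ᵥ e0 p = (5 / 4 : ℝ) • e0 p + (3 / 4 : ℝ) • es j)
    (h1 : mat b *ᵥ es j = (3 / 4 : ℝ) • e0 p + (5 / 4 : ℝ) • es j) :
    mat b *ᵥ (e0 p - es j) = (1 / 2 : ℝ) • (e0 p - es j) := by
  rw [Matrix.mulVec_sub, h0, h1]; module

theorem eq_zero_of_two_pow {x M : ℝ} (h : ∀ n : ℕ, |(2 : ℝ) ^ n * x| ≤ M) : x = 0 := by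
  by_contra hx
  have hx' : 0 < |x| := abs_pos.mpr hx
  obtain ⟨n, hn⟩ := pow_unbounded_of_one_lt (M / |x|) (one_lt_two : (1 : ℝ) < 2)
  have h1 := h n
  rw [abs_mul, abs_of_pos (by positivity : (0 : ℝ) < 2 ^ n)] at h1
  rw [div_lt_iff₀ hx'] at hn
  linarith

theorem abs_form_le (x w : Fin (p + 1) → ℝ) : |form p x w| ≤ (p + 1) * ‖x‖ * ‖w‖ := by
  rw [form_eq]
  have h1 : ∀ i, |x i * w i| ≤ ‖x‖ * ‖w‖ := by
    intro i
    rw [abs_mul]
    exact mul_le_mul (norm_le_pi_norm x i) (norm_le_pi_norm w i) (abs_nonneg _) (norm_nonneg _)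
  calc |x 0 * w 0 - ∑ i : Fin p, x i.succ * w i.succ|
      ≤ |x 0 * w 0| + |∑ i : Fin p, x i.succ * w i.succ| := abs_sub _ _
    _ ≤ |x 0 * w 0| + ∑ i : Fin p, |x i.succ * w i.succ| := by
        gcongr; exact Finset.abs_sum_le_sum_abs _ _
    _ ≤ ‖x‖ * ‖w‖ + ∑ _i : Fin p, ‖x‖ * ‖w‖ := by
        gcongr
        · exact h1 0
        · exact h1 _
    _ = (p + 1) * ‖x‖ * ‖w‖ := by simp; ring

/-- A vector with bounded orbit is zero. -/
theorem eq_zero_of_bounded_orbit (hp : 1 ≤ p) (w : Fin (p + 1) → ℝ) (M : ℝ)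
    (h : ∀ g : SOone p, ‖mat g *ᵥ w‖ ≤ M) : w = 0 := by
  have key : ∀ j : Fin p, form p (e0 p + es j) w = 0 ∧ form p (e0 p - es j) w = 0 := by
    intro j
    obtain ⟨b, h0, h1, -⟩ := exists_boost j
    have hplus := boost_plus h0 h1
    have hminus := boost_minus h0 h1
    have hbn : ∀ n : ℕ, mat (b ^ n) *ᵥ (e0 p + es j) = (2 : ℝ) ^ n • (e0 p + es j) := by
      intro n
      induction n with
      | zero => simp [mat_one]
      | succ n ih =>
        rw [pow_succ, mat_mul, ← Matrix.mulVec_mulVec, hplus, Matrix.mulVec_smul, ih, smul_smul,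
          pow_succ, mul_comm]
    have hminus' : mat b⁻¹ *ᵥ (e0 p - es j) = (2 : ℝ) • (e0 p - es j) := by
      have : e0 p - es j = (2 : ℝ) • (mat b *ᵥ (e0 p - es j)) := by rw [hminus, smul_smul]; simp
      conv_lhs => rw [this]
      rw [Matrix.mulVec_smul, Matrix.mulVec_mulVec, mat_inv_mul, Matrix.one_mulVec]
    have hbn' : ∀ n : ℕ, mat (b⁻¹ ^ n) *ᵥ (e0 p - es j) = (2 : ℝ) ^ n • (e0 p - es j) := by
      intro n
      induction n with
      | zero => simp [mat_one]
      | succ n ih =>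
        rw [pow_succ, mat_mul, ← Matrix.mulVec_mulVec, hminus', Matrix.mulVec_smul, ih, smul_smul,
          pow_succ, mul_comm]
    have hgen : ∀ (v : Fin (p + 1) → ℝ) (g : SOone p),
        form p (mat g *ᵥ v) w = form p v (mat g⁻¹ *ᵥ w) := by
      intro v g
      rw [← form_mat g v, Matrix.mulVec_mulVec, mat_mul_inv, Matrix.one_mulVec]
    constructor
    · apply eq_zero_of_two_pow (M := (p + 1) * ‖e0 p + es j‖ * M)
      intro n
      rw [← form_smul_left, ← hbn n, hgen]
      refine (abs_form_le _ _).trans ?_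
      have := h (b ^ n)⁻¹
      gcongr
    · apply eq_zero_of_two_pow (M := (p + 1) * ‖e0 p - es j‖ * M)
      intro n
      rw [← form_smul_left, ← hbn' n, hgen]
      refine (abs_form_le _ _).trans ?_
      have := h (b⁻¹ ^ n)⁻¹
      gcongr
  have key2 : ∀ j : Fin p, w 0 = 0 ∧ w j.succ = 0 := by
    intro j
    obtain ⟨h1, h2⟩ := key j
    rw [form_add_left, form_e0, form_es] at h1
    rw [sub_eq_add_neg, form_add_left, form_e0, ← neg_one_smul ℝ (es j), form_smul_left,
      form_es] at h2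
    constructor <;> linarith
  ext i
  refine Fin.cases ?_ (fun j => ?_) i
  · exact (key2 ⟨0, hp⟩).1
  · exact (key2 j).2

/-- The orbit of the null vector `e_0 + e_1` spans, for `p ≥ 2`. -/
theorem span_null (hp : 2 ≤ p) :
    Submodule.span ℝ (Set.range fun k : SOone p => mat k *ᵥ (e0 p + es ⟨0, by omega⟩)) = ⊤ := by
  set j0 : Fin p := ⟨0, by omega⟩ with hj0
  set W := Submodule.span ℝ (Set.range fun k : SOone p => mat k *ᵥ (e0 p + es j0)) with hW
  have hmem : ∀ k : SOone p, mat k *ᵥ (e0 p + es j0) ∈ W := fun k =>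
    Submodule.subset_span ⟨k, rfl⟩
  have h1 : e0 p + es j0 ∈ W := by simpa [mat_one] using hmem 1
  have key : ∀ j : Fin p, j ≠ j0 → e0 p ∈ W ∧ es j ∈ W := by
    intro j hj
    obtain ⟨b, hb0, hbj, hbi⟩ := exists_boost j
    have hA : mat b *ᵥ (e0 p + es j0) = (5 / 4 : ℝ) • e0 p + (3 / 4 : ℝ) • es j + es j0 := by
      rw [Matrix.mulVec_add, hb0, hbi j0 (Ne.symm hj)]
    have hinv0 : mat b⁻¹ *ᵥ e0 p = (5 / 4 : ℝ) • e0 p - (3 / 4 : ℝ) • es j := by
      have e1 : mat b *ᵥ ((5 / 4 : ℝ) • e0 p - (3 / 4 : ℝ) • es j) = e0 p := by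
        rw [Matrix.mulVec_sub, Matrix.mulVec_smul, Matrix.mulVec_smul, hb0, hbj]; module
      conv_lhs => rw [← e1]
      rw [Matrix.mulVec_mulVec, mat_inv_mul, Matrix.one_mulVec]
    have hinvj0 : mat b⁻¹ *ᵥ es j0 = es j0 := by
      conv_lhs => rw [← hbi j0 (Ne.symm hj)]
      rw [Matrix.mulVec_mulVec, mat_inv_mul, Matrix.one_mulVec]
    have hB : mat b⁻¹ *ᵥ (e0 p + es j0) = (5 / 4 : ℝ) • e0 p - (3 / 4 : ℝ) • es j + es j0 := by
      rw [Matrix.mulVec_add, hinv0, hinvj0]
    have mA := hmem b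
    have mB := hmem b⁻¹
    rw [hA] at mA
    rw [hB] at mB
    constructor
    · have : e0 p = (2 : ℝ) • (((5 / 4 : ℝ) • e0 p + (3 / 4 : ℝ) • es j + es j0) +
          ((5 / 4 : ℝ) • e0 p - (3 / 4 : ℝ) • es j + es j0) - (2 : ℝ) • (e0 p + es j0)) := by
        module
      rw [this]
      exact W.smul_mem _ (W.sub_mem (W.add_mem mA mB) (W.smul_mem _ h1))
    · have : es j = (2 / 3 : ℝ) • (((5 / 4 : ℝ) • e0 p + (3 / 4 : ℝ) • es j + es j0) -
          ((5 / 4 : ℝ) • e0 p - (3 / 4 : ℝ) • es j + es j0)) := by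
        module
      rw [this]
      exact W.smul_mem _ (W.sub_mem mA mB)
  have hj1 : (⟨1, by omega⟩ : Fin p) ≠ j0 := by
    intro h
    have := congrArg Fin.val h
    simp [hj0] at this
  have he0 : e0 p ∈ W := (key _ hj1).1
  have hes : ∀ j : Fin p, es j ∈ W := by
    intro j
    by_cases hj : j = j0
    · rw [hj]
      have : es j0 = (e0 p + es j0) - e0 p := by abel
      rw [this]
      exact W.sub_mem h1 he0
    · exact (key j hj).2
  rw [eq_top_iff]
  intro x _
  have hx : x = x 0 • e0 p + ∑ j : Fin p, x j.succ • es j := by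
    ext i
    refine Fin.cases ?_ (fun i => ?_) i
    · simp [e0_zero, es_zero, Finset.sum_apply]
    · simp [e0_succ, es_succ, Finset.sum_apply]
  rw [hx]
  exact W.add_mem (W.smul_mem _ he0) (W.sum_mem fun j _ => W.smul_mem _ (hes j))

end Pool.Agent.Lib.MPa37b3a
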