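import Mathlib

/-!
Definitions for the problem on deformations of uniform lattices of
`SO(1,p) × SO(1,q)` into `SO(2,p+q)`.
-/

open Matrix Topology

namespace Pool.Agent.Lib.MPa37b3a

/-- The Gram matrix `diag(1,-1,…,-1)` of the standard quadratic form of signature `(1,p)`
on `ℝ^{1+p}`. -/
def gram (p : ℕ) : Matrix (Fin (p + 1)) (Fin (p + 1)) ℝ :=
  Matrix.diagonal (fun i => if i = 0 then 1 else -1)

/-- The Gram matrix of the orthogonal direct sum of the forms of signature `(1,p)` and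
`(1,q)`; it is a form of signature `(2,p+q)` on `ℝ^{1+p} ⊕ ℝ^{1+q}`. -/
def gramSum (p q : ℕ) : Matrix (Fin (p + 1) ⊕ Fin (q + 1)) (Fin (p + 1) ⊕ Fin (q + 1)) ℝ :=
  Matrix.fromBlocks (gram p) 0 0 (gram q)

theorem so_mul {n : Type} [Fintype n] [DecidableEq n] {J : Matrix n n ℝ}
    {A B : Matrix.SpecialLinearGroup n ℝ}
    (hA : (A : Matrix n n ℝ)ᵀ * J * (A : Matrix n n ℝ) = J)
    (hB : (B : Matrix n n ℝ)ᵀ * J * (B : Matrix n n ℝ) = J) :
    ((A * B : Matrix.SpecialLinearGroup n ℝ) : Matrix n n ℝ)ᵀ * J *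
      ((A * B : Matrix.SpecialLinearGroup n ℝ) : Matrix n n ℝ) = J := by
  rw [Matrix.SpecialLinearGroup.coe_mul, Matrix.transpose_mul]
  calc (B : Matrix n n ℝ)ᵀ * (A : Matrix n n ℝ)ᵀ * J * ((A : Matrix n n ℝ) * (B : Matrix n n ℝ))
      = (B : Matrix n n ℝ)ᵀ * ((A : Matrix n n ℝ)ᵀ * J * (A : Matrix n n ℝ))
          * (B : Matrix n n ℝ) := by simp only [Matrix.mul_assoc]
    _ = J := by rw [hA, hB]

theorem so_one {n : Type} [Fintype n] [DecidableEq n] {J : Matrix n n ℝ} :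
    ((1 : Matrix.SpecialLinearGroup n ℝ) : Matrix n n ℝ)ᵀ * J *
      ((1 : Matrix.SpecialLinearGroup n ℝ) : Matrix n n ℝ) = J := by simp

theorem so_inv {n : Type} [Fintype n] [DecidableEq n] {J : Matrix n n ℝ}
    {A : Matrix.SpecialLinearGroup n ℝ}
    (hA : (A : Matrix n n ℝ)ᵀ * J * (A : Matrix n n ℝ) = J) :
    ((A⁻¹ : Matrix.SpecialLinearGroup n ℝ) : Matrix n n ℝ)ᵀ * J *
      ((A⁻¹ : Matrix.SpecialLinearGroup n ℝ) : Matrix n n ℝ) = J := by
  have h1 : (A : Matrix n n ℝ) * ((A⁻¹ : Matrix.SpecialLinearGroup n ℝ) : Matrix n n ℝ) = 1 := by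
    rw [← Matrix.SpecialLinearGroup.coe_mul]; simp
  have h2 : ((A⁻¹ : Matrix.SpecialLinearGroup n ℝ) : Matrix n n ℝ)ᵀ * (A : Matrix n n ℝ)ᵀ = 1 := by
    rw [← Matrix.transpose_mul, h1, Matrix.transpose_one]
  calc ((A⁻¹ : Matrix.SpecialLinearGroup n ℝ) : Matrix n n ℝ)ᵀ * J
        * ((A⁻¹ : Matrix.SpecialLinearGroup n ℝ) : Matrix n n ℝ)
      = ((A⁻¹ : Matrix.SpecialLinearGroup n ℝ) : Matrix n n ℝ)ᵀ
        * ((A : Matrix n n ℝ)ᵀ * J * (A : Matrix n n ℝ))
        * ((A⁻¹ : Matrix.SpecialLinearGroup n ℝ) : Matrix n n ℝ) := by rw [hA]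
    _ = (((A⁻¹ : Matrix.SpecialLinearGroup n ℝ) : Matrix n n ℝ)ᵀ * (A : Matrix n n ℝ)ᵀ) * J
        * ((A : Matrix n n ℝ) * ((A⁻¹ : Matrix.SpecialLinearGroup n ℝ) : Matrix n n ℝ)) := by
          simp only [Matrix.mul_assoc]
    _ = J := by rw [h1, h2]; simp

/-- The special orthogonal group of the bilinear form with Gram matrix `J`: the real matrices
`A` with `Aᵀ J A = J` and `det A = 1`, with the topology induced from the space of matrices. -/
def specialOrthogonal {n : Type} [Fintype n] [DecidableEq n] (J : Matrix n n ℝ) :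
    Subgroup (Matrix.SpecialLinearGroup n ℝ) where
  carrier := {A | (A : Matrix n n ℝ)ᵀ * J * (A : Matrix n n ℝ) = J}
  one_mem' := so_one
  mul_mem' := so_mul
  inv_mem' := so_inv

/-- The underlying matrix of an element of a special orthogonal group. -/
def mat {n : Type} [Fintype n] [DecidableEq n] {J : Matrix n n ℝ} (g : specialOrthogonal J) :
    Matrix n n ℝ :=
  ((g : Matrix.SpecialLinearGroup n ℝ) : Matrix n n ℝ)

theorem mat_form {n : Type} [Fintype n] [DecidableEq n] {J : Matrix n n ℝ}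
    (g : specialOrthogonal J) : (mat g)ᵀ * J * mat g = J := g.2

theorem mat_det {n : Type} [Fintype n] [DecidableEq n] {J : Matrix n n ℝ}
    (g : specialOrthogonal J) : (mat g).det = 1 :=
  Matrix.SpecialLinearGroup.det_coe _

theorem mat_injective {n : Type} [Fintype n] [DecidableEq n] {J : Matrix n n ℝ} :
    Function.Injective (mat (J := J)) := fun _ _ h => Subtype.ext (Subtype.ext h)

theorem mat_mul {n : Type} [Fintype n] [DecidableEq n] {J : Matrix n n ℝ}
    (g h : specialOrthogonal J) : mat (g * h) = mat g * mat h := rfl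

theorem mat_one {n : Type} [Fintype n] [DecidableEq n] {J : Matrix n n ℝ} :
    mat (1 : specialOrthogonal J) = 1 := rfl

/-- Constructor for elements of a special orthogonal group. -/
def mkSO {n : Type} [Fintype n] [DecidableEq n] {J : Matrix n n ℝ} (A : Matrix n n ℝ)
    (h : Aᵀ * J * A = J) (hd : A.det = 1) : specialOrthogonal J :=
  ⟨(⟨A, hd⟩ : Matrix.SpecialLinearGroup n ℝ), h⟩

theorem mat_mkSO {n : Type} [Fintype n] [DecidableEq n] {J : Matrix n n ℝ} (A : Matrix n n ℝ)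
    (h : Aᵀ * J * A = J) (hd : A.det = 1) : mat (mkSO A h hd) = A := rfl

/-- `SO(1,p)`. -/
abbrev SOone (p : ℕ) : Subgroup (Matrix.SpecialLinearGroup (Fin (p + 1)) ℝ) :=
  specialOrthogonal (gram p)

/-- `SO(2,p+q)`, realised on `ℝ^{1+p} ⊕ ℝ^{1+q}`. -/
abbrev SOtwo (p q : ℕ) : Subgroup (Matrix.SpecialLinearGroup (Fin (p + 1) ⊕ Fin (q + 1)) ℝ) :=
  specialOrthogonal (gramSum p q)

theorem block_form {p q : ℕ} (A : SOone p) (B : SOone q) :
    (Matrix.fromBlocks (mat A) 0 0 (mat B))ᵀ * gramSum p q *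
      Matrix.fromBlocks (mat A) 0 0 (mat B) = gramSum p q := by
  rw [Matrix.fromBlocks_transpose, gramSum, Matrix.fromBlocks_multiply, Matrix.fromBlocks_multiply]
  simp [mat_form]

theorem block_det {p q : ℕ} (A : SOone p) (B : SOone q) :
    (Matrix.fromBlocks (mat A) 0 0 (mat B)).det = 1 := by
  rw [Matrix.det_fromBlocks_zero₂₁, mat_det, mat_det, one_mul]

theorem iota_mul {p q : ℕ} (x y : SOone p × SOone q) :
    (mkSO (Matrix.fromBlocks (mat (x * y).1) 0 0 (mat (x * y).2)) (block_form _ _)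
      (block_det _ _) : SOtwo p q) =
    (mkSO (Matrix.fromBlocks (mat x.1) 0 0 (mat x.2)) (block_form _ _) (block_det _ _)) *
    (mkSO (Matrix.fromBlocks (mat y.1) 0 0 (mat y.2)) (block_form _ _) (block_det _ _)) := by
  apply mat_injective
  change Matrix.fromBlocks (mat x.1 * mat y.1) 0 0 (mat x.2 * mat y.2) =
    Matrix.fromBlocks (mat x.1) 0 0 (mat x.2) * Matrix.fromBlocks (mat y.1) 0 0 (mat y.2)
  rw [Matrix.fromBlocks_multiply]
  simp

/-- The natural block-diagonal embedding `ι : SO(1,p) × SO(1,q) → SO(2,p+q)`. -/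
def iota (p q : ℕ) : (SOone p × SOone q) →* SOtwo p q :=
  MonoidHom.mk' (fun g => mkSO (Matrix.fromBlocks (mat g.1) 0 0 (mat g.2))
    (block_form g.1 g.2) (block_det g.1 g.2)) iota_mul

theorem mat_iota {p q : ℕ} (g : SOone p × SOone q) :
    mat (iota p q g) = Matrix.fromBlocks (mat g.1) 0 0 (mat g.2) := rfl

/-- A uniform lattice of a topological group `H`: a subgroup `Γ` which is discrete and for
which the quotient `Γ\H` is compact. -/
def IsUniformLattice {H : Type} [Group H] [TopologicalSpace H] (Γ : Subgroup H) : Prop :=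
  DiscreteTopology Γ ∧ CompactSpace (MulAction.orbitRel.Quotient Γ H)

/-- For an embedding `ι : H → G`: the image of `ρ` is conjugate in `G` into `ι(H)`. -/
def ConjInto {H G : Type} [Group H] [Group G] (ι : H →* G) {Γ : Subgroup H} (ρ : Γ →* G) :
    Prop :=
  ∃ g : G, ∀ γ : Γ, g * ρ γ * g⁻¹ ∈ ι.range

/-- A deformation of `Γ ≤ H` into `G` via `ι : H → G`: a path `(ρ_t)_{t ∈ [0,1]}` of
homomorphisms `Γ → G`, continuous for the topology of pointwise convergence, with
`ρ_0 = ι|_Γ`. -/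
def IsDeformation {H G : Type} [Group H] [Group G] [TopologicalSpace G] (ι : H →* G)
    {Γ : Subgroup H} (ρ : unitInterval → (Γ →* G)) : Prop :=
  (∀ γ : Γ, Continuous fun t => ρ t γ) ∧ ∀ γ : Γ, ρ 0 γ = ι γ

/-- A deformation is non-trivial if for every `t > 0` the image of `ρ_t` is not conjugate
in `G` into `ι(H)`. -/
def IsNontrivial {H G : Type} [Group H] [Group G] (ι : H →* G)
    {Γ : Subgroup H} (ρ : unitInterval → (Γ →* G)) : Prop :=
  ∀ t : unitInterval, 0 < t → ¬ ConjInto ι (ρ t)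

/-- Every homomorphism `Γ → G` sufficiently close to `ι|_Γ`, in the topology of
pointwise convergence, has image conjugate into `ι(H)`. -/
def LocallyConjInto {H G : Type} [Group H] [Group G] [TopologicalSpace G] (ι : H →* G)
    (Γ : Subgroup H) : Prop :=
  ∃ U : Set (Γ → G), IsOpen U ∧ (fun γ : Γ => ι γ) ∈ U ∧
    ∀ ρ : Γ →* G, (fun γ => ρ γ) ∈ U → ConjInto ι ρ

/-- The group `SO(1,p) × SO(1,q)`. -/
def Hpq (p q : ℕ) : Type := SOone p × SOone q

/-- The group structure of `SO(1,p) × SO(1,q)`. -/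
instance (p q : ℕ) : Group (Hpq p q) := (Prod.instGroup : Group (SOone p × SOone q))

/-- The topology of `SO(1,p) × SO(1,q)`. -/
instance (p q : ℕ) : TopologicalSpace (Hpq p q) :=
  (instTopologicalSpaceProd : TopologicalSpace (SOone p × SOone q))

/-- The group `SO(2,p+q)`. -/
def Gpq (p q : ℕ) : Type := SOtwo p q

/-- The group structure of `SO(2,p+q)`. -/
instance (p q : ℕ) : Group (Gpq p q) := Subgroup.toGroup (SOtwo p q)

/-- The topology of `SO(2,p+q)`. -/
instance (p q : ℕ) : TopologicalSpace (Gpq p q) :=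
  (instTopologicalSpaceSubtype : TopologicalSpace (SOtwo p q))

/-- The natural block-diagonal embedding `SO(1,p) × SO(1,q) → SO(2,p+q)`, as a map. -/
def inclFun (p q : ℕ) (g : Hpq p q) : Gpq p q :=
  mkSO (Matrix.fromBlocks (mat g.1) 0 0 (mat g.2)) (block_form g.1 g.2) (block_det g.1 g.2)

theorem inclFun_mul (p q : ℕ) (x y : Hpq p q) :
    inclFun p q (x * y) = inclFun p q x * inclFun p q y :=
  iota_mul x y

/-- The natural block-diagonal embedding `SO(1,p) × SO(1,q) → SO(2,p+q)`. -/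
def incl (p q : ℕ) : Hpq p q →* Gpq p q :=
  MonoidHom.mk' (inclFun p q) (inclFun_mul p q)

end Pool.Agent.Lib.MPa37b3a
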