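import Pool.Agent.Lib.MPa37b3a.Sylv

/-!
Homomorphisms close to `ι|_Γ` are conjugate into `ι(SO(1,p) × SO(1,q))`.
-/

open Matrix Topology Filter

namespace Pool.Agent.Lib.MPa37b3a

attribute [local instance] Matrix.linftyOpNormedAddCommGroup Matrix.linftyOpNormedSpace

variable {p q : ℕ}

theorem exists_delta (p q : ℕ) : ∃ δ : ℝ, 0 < δ ∧
    ∀ T : Matrix (Fin (q + 1)) (Fin (p + 1)) ℝ, ‖T‖ ≤ δ →
      (∃ Y : Matrix (Fin (p + 1)) (Fin (p + 1)) ℝ,
        Yᵀ * gram p * Y = gram p + Tᵀ * gram q * T ∧ Y.det ≠ 0) ∧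
      (∃ Y : Matrix (Fin (q + 1)) (Fin (q + 1)) ℝ,
        Yᵀ * gram q * Y = gram q + gram q * T * gram p * Tᵀ * gram q ∧ Y.det ≠ 0) := by
  obtain ⟨η1, hη1, h1⟩ := sylvester p
  obtain ⟨η2, hη2, h2⟩ := sylvester q
  have hid : Continuous fun T : Matrix (Fin (q + 1)) (Fin (p + 1)) ℝ => T := continuous_id
  have c1 : Continuous fun T : Matrix (Fin (q + 1)) (Fin (p + 1)) ℝ => ‖Tᵀ * gram q * T‖ :=
    continuous_norm.comp ((hid.matrix_transpose.matrix_mul continuous_const).matrix_mul hid)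
  have c2 : Continuous fun T : Matrix (Fin (q + 1)) (Fin (p + 1)) ℝ =>
      ‖gram q * T * gram p * Tᵀ * gram q‖ :=
    continuous_norm.comp ((((continuous_const.matrix_mul hid).matrix_mul
      continuous_const).matrix_mul hid.matrix_transpose).matrix_mul continuous_const)
  have e1 : ∀ᶠ T in 𝓝 (0 : Matrix (Fin (q + 1)) (Fin (p + 1)) ℝ), ‖Tᵀ * gram q * T‖ < η1 := by
    have := c1.tendsto 0
    simp only [Matrix.mul_zero, norm_zero] at this
    exact this.eventually (eventually_lt_nhds hη1)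
  have e2 : ∀ᶠ T in 𝓝 (0 : Matrix (Fin (q + 1)) (Fin (p + 1)) ℝ),
      ‖gram q * T * gram p * Tᵀ * gram q‖ < η2 := by
    have := c2.tendsto 0
    simp only [Matrix.mul_zero, Matrix.zero_mul, norm_zero] at this
    exact this.eventually (eventually_lt_nhds hη2)
  obtain ⟨δ, hδ, hball⟩ := Metric.nhds_basis_closedBall.mem_iff.mp (e1.and e2)
  refine ⟨δ, hδ, fun T hT => ?_⟩
  obtain ⟨g1, g2⟩ := hball (show T ∈ Metric.closedBall 0 δ by simpa using hT)
  constructor
  · apply h1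
    · rw [Matrix.transpose_add, gram_transpose, Matrix.transpose_mul, Matrix.transpose_mul,
        Matrix.transpose_transpose, gram_transpose, Matrix.mul_assoc]
    · intro i j
      have : (gram p + Tᵀ * gram q * T) i j - gram p i j = (Tᵀ * gram q * T) i j := by
        rw [Matrix.add_apply]; ring
      rw [this]
      exact (abs_entry_le_norm _ _ _).trans g1.le
  · apply h2
    · rw [Matrix.transpose_add, gram_transpose]
      congr 1
      simp only [Matrix.transpose_mul, Matrix.transpose_transpose, gram_transpose,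
        Matrix.mul_assoc]
    · intro i j
      have : (gram q + gram q * T * gram p * Tᵀ * gram q) i j - gram q i j =
          (gram q * T * gram p * Tᵀ * gram q) i j := by
        rw [Matrix.add_apply]; ring
      rw [this]
      exact (abs_entry_le_norm _ _ _).trans g2.le

theorem gramSum_sq (p q : ℕ) : gramSum p q * gramSum p q = 1 := by
  rw [gramSum, Matrix.fromBlocks_multiply, gram_sq, gram_sq]
  simp [Matrix.fromBlocks_one]

theorem exists_reflection (p : ℕ) : ∃ F : Matrix (Fin (p + 1)) (Fin (p + 1)) ℝ,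
    Fᵀ * gram p * F = gram p ∧ F * F = 1 ∧ F.det = -1 := by
  set d : Fin (p + 1) → ℝ := Fin.cons (-1) fun _ => 1 with hd
  have hdd : ∀ i, d i * d i = 1 := by
    intro i
    refine Fin.cases ?_ (fun i => ?_) i <;> simp [hd]
  refine ⟨Matrix.diagonal d, ?_, ?_, ?_⟩
  · rw [Matrix.diagonal_transpose, gram, Matrix.diagonal_mul_diagonal,
      Matrix.diagonal_mul_diagonal]
    congr 1
    ext i
    have := hdd i
    split_ifs <;> linarith
  · rw [Matrix.diagonal_mul_diagonal, ← Matrix.diagonal_one]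
    congr 1
    ext i
    exact hdd i
  · rw [Matrix.det_diagonal, Fin.prod_univ_succ]
    simp [hd]

/-- The main conjugation statement. -/
theorem conj_of_graph {Γ : Subgroup (SOone p × SOone q)} (ρ : Γ →* SOtwo p q)
    (T : Matrix (Fin (q + 1)) (Fin (p + 1)) ℝ)
    (hT1 : ∃ Y : Matrix (Fin (p + 1)) (Fin (p + 1)) ℝ,
        Yᵀ * gram p * Y = gram p + Tᵀ * gram q * T ∧ Y.det ≠ 0)
    (hT2 : ∃ Y : Matrix (Fin (q + 1)) (Fin (q + 1)) ℝ,
        Yᵀ * gram q * Y = gram q + gram q * T * gram p * Tᵀ * gram q ∧ Y.det ≠ 0)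
    (hRT : ∀ γ : Γ, RT T (mat (ρ γ)) = 0)
    (S : Set Γ) (hS : Submonoid.closure S = ⊤)
    (hdetS : ∀ s ∈ S, |((mat (ρ s)).toBlocks₁₁ + (mat (ρ s)).toBlocks₁₂ * T).det - 1| < 1) :
    ConjInto (iota p q) ρ := by
  obtain ⟨Y1, hY1, hY1d⟩ := hT1
  obtain ⟨Y2, hY2, hY2d⟩ := hT2
  set G1 := gram p + Tᵀ * gram q * T with hG1
  set G2 := gram q + gram q * T * gram p * Tᵀ * gram q with hG2
  set Ts : Matrix (Fin (p + 1)) (Fin (q + 1)) ℝ := -(gram p * Tᵀ * gram q) with hTs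
  set P : Matrix (Fin (p + 1) ⊕ Fin (q + 1)) (Fin (p + 1) ⊕ Fin (q + 1)) ℝ :=
    Matrix.fromBlocks 1 Ts T 1 with hP
  set J := gramSum p q with hJ
  have hTst : Tsᵀ = -(gram q * T * gram p) := by
    rw [hTs, Matrix.transpose_neg, Matrix.transpose_mul, Matrix.transpose_mul,
      Matrix.transpose_transpose, gram_transpose, gram_transpose, Matrix.mul_assoc]
  have hgTs : gram p * Ts = -(Tᵀ * gram q) := by
    rw [hTs, Matrix.mul_neg, Matrix.mul_assoc, ← Matrix.mul_assoc (gram p), gram_sq,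
      Matrix.one_mul]
  have hPJP : Pᵀ * J * P = Matrix.fromBlocks G1 0 0 G2 := by
    rw [hP, hJ, gramSum, Matrix.fromBlocks_transpose, Matrix.fromBlocks_multiply,
      Matrix.fromBlocks_multiply, Matrix.transpose_one, Matrix.transpose_one]
    congr 1
    · rw [hG1]; simp
    · simp only [Matrix.one_mul, Matrix.mul_zero, add_zero, zero_add, Matrix.mul_one]
      rw [hgTs]; simp
    · simp only [Matrix.one_mul, Matrix.mul_zero, add_zero, zero_add, Matrix.mul_one]
      rw [hTst, Matrix.neg_mul, Matrix.mul_assoc, gram_sq, Matrix.mul_one]; simp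
    · simp only [Matrix.one_mul, Matrix.mul_zero, add_zero, zero_add, Matrix.mul_one]
      rw [hTst, Matrix.mul_assoc, hgTs, hG2]
      simp only [Matrix.mul_neg, Matrix.neg_mul, neg_neg, Matrix.mul_assoc]
      exact add_comm _ _
  set Y : Matrix (Fin (p + 1) ⊕ Fin (q + 1)) (Fin (p + 1) ⊕ Fin (q + 1)) ℝ :=
    Matrix.fromBlocks Y1 0 0 Y2 with hY
  have hYJY : Yᵀ * J * Y = Pᵀ * J * P := by
    rw [hPJP, hY, hJ, gramSum, Matrix.fromBlocks_transpose, Matrix.fromBlocks_multiply,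
      Matrix.fromBlocks_multiply]
    simp [hY1, hY2]
  have hYd : Y.det ≠ 0 := by
    rw [hY, Matrix.det_fromBlocks_zero₂₁]
    exact mul_ne_zero hY1d hY2d
  have hJd : J.det * J.det = 1 := by
    rw [← Matrix.det_mul, hJ, gramSum_sq, Matrix.det_one]
  have hJd0 : J.det ≠ 0 := fun h => by rw [h] at hJd; simp at hJd
  have hPd : P.det ≠ 0 := by
    intro h
    have h1 := congrArg Matrix.det hYJY
    simp only [Matrix.det_mul, Matrix.det_transpose, h, mul_zero] at h1
    exact (mul_ne_zero (mul_ne_zero hYd hJd0) hYd) h1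
  have hPu : IsUnit P.det := isUnit_iff_ne_zero.mpr hPd
  have hYu : IsUnit Y.det := isUnit_iff_ne_zero.mpr hYd
  -- the block form of `P⁻¹ ρ(γ) P`
  set N11 : Γ → Matrix (Fin (p + 1)) (Fin (p + 1)) ℝ := fun γ =>
    (mat (ρ γ)).toBlocks₁₁ + (mat (ρ γ)).toBlocks₁₂ * T with hN11
  have hNblock : ∀ γ : Γ, ∃ N22 : Matrix (Fin (q + 1)) (Fin (q + 1)) ℝ,
      P⁻¹ * mat (ρ γ) * P = Matrix.fromBlocks (N11 γ) 0 0 N22 := by
    intro γ
    set R := mat (ρ γ) with hR
    set N := P⁻¹ * R * P with hN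
    have hPN : P * N = R * P := by
      rw [hN, Matrix.mul_assoc, Matrix.mul_nonsing_inv_cancel_left P _ hPu]
    have hblocks := Matrix.fromBlocks_toBlocks N
    -- first column of `R P`
    have hcol : R * Matrix.fromBlocks 1 0 T 0 = P * Matrix.fromBlocks (N11 γ) 0 0 0 := by
      conv_lhs => rw [← Matrix.fromBlocks_toBlocks R]
      rw [hP, Matrix.fromBlocks_multiply, Matrix.fromBlocks_multiply]
      simp only [Matrix.mul_one, Matrix.mul_zero, add_zero, Matrix.one_mul]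
      congr 1
      have h1 := hRT γ
      unfold RT at h1
      rw [← hR] at h1
      have h2 : R.toBlocks₂₁ + R.toBlocks₂₂ * T = T * R.toBlocks₁₁ + T * R.toBlocks₁₂ * T := by
        rw [← sub_eq_zero, ← sub_sub]; exact h1
      rw [h2]
      simp only [hN11, Matrix.mul_add, Matrix.mul_assoc]
      rfl
    have hPcol : P * Matrix.fromBlocks 1 0 0 0 = Matrix.fromBlocks 1 0 T 0 := by
      rw [hP, Matrix.fromBlocks_multiply]; simp
    have hNcol : N * Matrix.fromBlocks 1 0 0 0 = Matrix.fromBlocks (N11 γ) 0 0 0 := by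
      have h3 : P * (N * Matrix.fromBlocks 1 0 0 0) = P * Matrix.fromBlocks (N11 γ) 0 0 0 := by
        rw [← Matrix.mul_assoc, hPN, Matrix.mul_assoc, hPcol, hcol]
      have h4 := congrArg (fun X => P⁻¹ * X) h3
      simpa [Matrix.nonsing_inv_mul_cancel_left P _ hPu] using h4
    have hN11' : N.toBlocks₁₁ = N11 γ ∧ N.toBlocks₂₁ = 0 := by
      rw [← hblocks, Matrix.fromBlocks_multiply] at hNcol
      simp only [Matrix.mul_one, Matrix.mul_zero, add_zero] at hNcol
      rw [Matrix.fromBlocks_inj] at hNcol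
      exact ⟨hNcol.1, hNcol.2.2.1⟩
    have hNd : N.det = 1 := by
      rw [hN, Matrix.det_mul, Matrix.det_mul, mul_right_comm, ← Matrix.det_mul,
        Matrix.nonsing_inv_mul P hPu, Matrix.det_one, one_mul, mat_det]
    have hNG : Nᵀ * (Pᵀ * J * P) * N = Pᵀ * J * P := by
      have : Nᵀ * (Pᵀ * J * P) * N = (P * N)ᵀ * J * (P * N) := by
        rw [Matrix.transpose_mul P N]; simp only [Matrix.mul_assoc]
      rw [this, hPN, Matrix.transpose_mul]
      calc Pᵀ * Rᵀ * J * (R * P) = Pᵀ * (Rᵀ * J * R) * P := by simp only [Matrix.mul_assoc]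
        _ = Pᵀ * J * P := by rw [hR, hJ, mat_form]
    have hG1d : G1.det ≠ 0 := by
      rw [← hY1, Matrix.det_mul, Matrix.det_mul, Matrix.det_transpose]
      have : (gram p).det * (gram p).det = 1 := by
        rw [← Matrix.det_mul, gram_sq, Matrix.det_one]
      have h5 : (gram p).det ≠ 0 := fun h => by rw [h] at this; simp at this
      exact mul_ne_zero (mul_ne_zero hY1d h5) hY1d
    have hN12 : N.toBlocks₁₂ = 0 := by
      rw [hPJP, ← hblocks, hN11'.2, Matrix.fromBlocks_transpose, Matrix.fromBlocks_multiply,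
        Matrix.fromBlocks_multiply, Matrix.fromBlocks_inj] at hNG
      have h6 := hNG.2.1
      simp only [Matrix.transpose_zero, Matrix.zero_mul, Matrix.mul_zero, add_zero] at h6
      have h7 : (N.toBlocks₁₁).det ≠ 0 := by
        intro h
        rw [← hblocks, hN11'.2, Matrix.det_fromBlocks_zero₂₁, h, zero_mul] at hNd
        exact zero_ne_one hNd
      have h8 : IsUnit ((N.toBlocks₁₁)ᵀ * G1).det := by
        rw [Matrix.det_mul, Matrix.det_transpose]
        exact isUnit_iff_ne_zero.mpr (mul_ne_zero h7 hG1d)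
      have h9 := congrArg (fun X => ((N.toBlocks₁₁)ᵀ * G1)⁻¹ * X) h6
      simpa [Matrix.nonsing_inv_mul_cancel_left _ _ h8] using h9
    refine ⟨N.toBlocks₂₂, ?_⟩
    rw [← hN11'.1]
    conv_lhs => rw [← hblocks]
    rw [hN11'.2, hN12]
  choose N22 hN22 using hNblock
  -- determinant of the first block
  have hdetsq : ∀ γ : Γ, (N11 γ).det = 1 ∨ (N11 γ).det = -1 := by
    intro γ
    have hPN : P * Matrix.fromBlocks (N11 γ) 0 0 (N22 γ) = mat (ρ γ) * P := by
      rw [← hN22, Matrix.mul_assoc, Matrix.mul_nonsing_inv_cancel_left P _ hPu]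
    have hNG : (Matrix.fromBlocks (N11 γ) 0 0 (N22 γ))ᵀ * (Pᵀ * J * P) *
        Matrix.fromBlocks (N11 γ) 0 0 (N22 γ) = Pᵀ * J * P := by
      have : (Matrix.fromBlocks (N11 γ) 0 0 (N22 γ))ᵀ * (Pᵀ * J * P) *
          Matrix.fromBlocks (N11 γ) 0 0 (N22 γ) =
          (P * Matrix.fromBlocks (N11 γ) 0 0 (N22 γ))ᵀ * J *
            (P * Matrix.fromBlocks (N11 γ) 0 0 (N22 γ)) := by
        rw [Matrix.transpose_mul]; simp only [Matrix.mul_assoc]
      rw [this, hPN, Matrix.transpose_mul]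
      calc Pᵀ * (mat (ρ γ))ᵀ * J * (mat (ρ γ) * P) =
            Pᵀ * ((mat (ρ γ))ᵀ * J * mat (ρ γ)) * P := by simp only [Matrix.mul_assoc]
        _ = Pᵀ * J * P := by rw [hJ, mat_form]
    rw [hPJP, Matrix.fromBlocks_transpose, Matrix.fromBlocks_multiply,
        Matrix.fromBlocks_multiply, Matrix.fromBlocks_inj] at hNG
    have h1 := hNG.1
    simp only [Matrix.transpose_zero, Matrix.zero_mul, Matrix.mul_zero, add_zero] at h1
    have h2 := congrArg Matrix.det h1
    rw [Matrix.det_mul, Matrix.det_mul, Matrix.det_transpose] at h2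
    have hG1d : G1.det ≠ 0 := by
      rw [← hY1, Matrix.det_mul, Matrix.det_mul, Matrix.det_transpose]
      have : (gram p).det * (gram p).det = 1 := by
        rw [← Matrix.det_mul, gram_sq, Matrix.det_one]
      have h5 : (gram p).det ≠ 0 := fun h => by rw [h] at this; simp at this
      exact mul_ne_zero (mul_ne_zero hY1d h5) hY1d
    have h3 : (N11 γ).det * (N11 γ).det = 1 := by
      apply mul_left_cancel₀ hG1d
      linarith
    exact mul_self_eq_one_iff.mp h3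
  have hdet1 : ∀ γ : Γ, (N11 γ).det = 1 := by
    intro γ
    have hγ : γ ∈ Submonoid.closure S := by rw [hS]; trivial
    induction hγ using Submonoid.closure_induction with
    | mem s hs =>
      rcases hdetsq s with h | h
      · exact h
      · exfalso
        have h1 := hdetS s hs
        have h2 : ((mat (ρ s)).toBlocks₁₁ + (mat (ρ s)).toBlocks₁₂ * T).det = -1 := h
        rw [h2] at h1
        norm_num at h1
    | one =>
      have h1 : N11 1 = 1 := by
        simp only [hN11]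
        rw [map_one, mat_one, ← Matrix.fromBlocks_one]
        simp only [Matrix.toBlocks_fromBlocks₁₁, Matrix.toBlocks_fromBlocks₁₂]
        simp
      rw [h1, Matrix.det_one]
    | mul x y hx hy ihx ihy =>
      have h1 : Matrix.fromBlocks (N11 (x * y)) 0 0 (N22 (x * y)) =
          Matrix.fromBlocks (N11 x * N11 y) 0 0 (N22 x * N22 y) := by
        have h2 : Matrix.fromBlocks (N11 x * N11 y) 0 0 (N22 x * N22 y) =
            Matrix.fromBlocks (N11 x) 0 0 (N22 x) * Matrix.fromBlocks (N11 y) 0 0 (N22 y) := by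
          rw [Matrix.fromBlocks_multiply]; simp
        rw [h2, ← hN22, ← hN22, ← hN22, map_mul, mat_mul]
        calc P⁻¹ * (mat (ρ x) * mat (ρ y)) * P
            = P⁻¹ * mat (ρ x) * (P * (P⁻¹ * (mat (ρ y) * P))) := by
              rw [Matrix.mul_nonsing_inv_cancel_left P _ hPu]
              simp only [Matrix.mul_assoc]
          _ = _ := by simp only [Matrix.mul_assoc]
      rw [Matrix.fromBlocks_inj] at h1
      rw [h1.1, Matrix.det_mul, ihx, ihy, one_mul]
  -- the conjugating element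
  obtain ⟨F1, hF1, hF1sq, hF1d⟩ := exists_reflection p
  set F : Matrix (Fin (p + 1) ⊕ Fin (q + 1)) (Fin (p + 1) ⊕ Fin (q + 1)) ℝ :=
    Matrix.fromBlocks F1 0 0 1 with hF
  have hFJ : Fᵀ * J * F = J := by
    rw [hF, hJ, gramSum, Matrix.fromBlocks_transpose, Matrix.fromBlocks_multiply,
      Matrix.fromBlocks_multiply]
    simp [hF1]
  have hFd : F.det = -1 := by
    rw [hF, Matrix.det_fromBlocks_zero₂₁, hF1d]; simp
  set g0 := Y * P⁻¹ with hg0
  have hg0J : g0ᵀ * J * g0 = J := by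
    rw [hg0, Matrix.transpose_mul]
    calc (P⁻¹)ᵀ * Yᵀ * J * (Y * P⁻¹) = (P⁻¹)ᵀ * (Yᵀ * J * Y) * P⁻¹ := by
          simp only [Matrix.mul_assoc]
      _ = (P⁻¹)ᵀ * (Pᵀ * J * P) * P⁻¹ := by rw [hYJY]
      _ = ((P⁻¹)ᵀ * Pᵀ) * J * (P * P⁻¹) := by simp only [Matrix.mul_assoc]
      _ = J := by
        rw [← Matrix.transpose_mul, Matrix.mul_nonsing_inv P hPu]; simp
  have hg0d : g0.det = 1 ∨ g0.det = -1 := by
    have h1 := congrArg Matrix.det hg0J
    rw [Matrix.det_mul, Matrix.det_mul, Matrix.det_transpose] at h1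
    have h3 : g0.det * g0.det = 1 := by
      apply mul_left_cancel₀ hJd0
      linarith
    exact mul_self_eq_one_iff.mp h3
  -- a block diagonal matrix `Z` with `Z P⁻¹ ∈ SO(J)`
  have hZ : ∃ Z1 : Matrix (Fin (p + 1)) (Fin (p + 1)) ℝ, ∃ Z2 : Matrix (Fin (q + 1)) (Fin (q + 1)) ℝ,
      Z1.det ≠ 0 ∧ Z2.det ≠ 0 ∧
      (Matrix.fromBlocks Z1 0 0 Z2 * P⁻¹)ᵀ * J * (Matrix.fromBlocks Z1 0 0 Z2 * P⁻¹) = J ∧
      (Matrix.fromBlocks Z1 0 0 Z2 * P⁻¹).det = 1 := by
    rcases hg0d with h | h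
    · exact ⟨Y1, Y2, hY1d, hY2d, hg0J, h⟩
    · refine ⟨F1 * Y1, Y2, ?_, hY2d, ?_, ?_⟩
      · rw [Matrix.det_mul, hF1d]
        exact mul_ne_zero (by norm_num) hY1d
      · have h1 : Matrix.fromBlocks (F1 * Y1) 0 0 Y2 * P⁻¹ = F * g0 := by
          rw [hg0, ← Matrix.mul_assoc, hF, hY, Matrix.fromBlocks_multiply]; simp
        rw [h1, Matrix.transpose_mul]
        calc g0ᵀ * Fᵀ * J * (F * g0) = g0ᵀ * (Fᵀ * J * F) * g0 := by simp only [Matrix.mul_assoc]
          _ = J := by rw [hFJ, hg0J]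
      · have h1 : Matrix.fromBlocks (F1 * Y1) 0 0 Y2 * P⁻¹ = F * g0 := by
          rw [hg0, ← Matrix.mul_assoc, hF, hY, Matrix.fromBlocks_multiply]; simp
        rw [h1, Matrix.det_mul, hFd, h]; norm_num
  obtain ⟨Z1, Z2, hZ1d, hZ2d, hgJ, hgd⟩ := hZ
  set Z := Matrix.fromBlocks Z1 0 0 Z2 with hZdef
  set g : SOtwo p q := mkSO (Z * P⁻¹) hgJ hgd with hg
  have hZd : IsUnit Z.det := by
    rw [hZdef, Matrix.det_fromBlocks_zero₂₁]
    exact isUnit_iff_ne_zero.mpr (mul_ne_zero hZ1d hZ2d)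
  refine ⟨g, fun γ => ?_⟩
  have hmatg : mat g = Z * P⁻¹ := mat_mkSO _ _ _
  have hginv : mat g⁻¹ = P * Z⁻¹ := by
    have h1 : mat g * (P * Z⁻¹) = 1 := by
      rw [hmatg, Matrix.mul_assoc, Matrix.nonsing_inv_mul_cancel_left P _ hPu,
        Matrix.mul_nonsing_inv Z hZd]
    calc mat g⁻¹ = mat g⁻¹ * (mat g * (P * Z⁻¹)) := by rw [h1, Matrix.mul_one]
      _ = (mat g⁻¹ * mat g) * (P * Z⁻¹) := by rw [Matrix.mul_assoc]
      _ = P * Z⁻¹ := by rw [mat_inv_mul, Matrix.one_mul]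
  have hZinv : Z⁻¹ = Matrix.fromBlocks Z1⁻¹ 0 0 Z2⁻¹ := by
    apply Matrix.inv_eq_right_inv
    rw [hZdef, Matrix.fromBlocks_multiply,
      Matrix.mul_nonsing_inv Z1 (isUnit_iff_ne_zero.mpr hZ1d),
      Matrix.mul_nonsing_inv Z2 (isUnit_iff_ne_zero.mpr hZ2d)]
    simp [Matrix.fromBlocks_one]
  have hconj : mat (g * ρ γ * g⁻¹) = Matrix.fromBlocks (Z1 * N11 γ * Z1⁻¹) 0 0
      (Z2 * N22 γ * Z2⁻¹) := by
    rw [mat_mul, mat_mul, hmatg, hginv]
    calc Z * P⁻¹ * mat (ρ γ) * (P * Z⁻¹) = Z * (P⁻¹ * mat (ρ γ) * P) * Z⁻¹ := by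
          simp only [Matrix.mul_assoc]
      _ = _ := by
        rw [hN22, hZinv, hZdef, Matrix.fromBlocks_multiply, Matrix.fromBlocks_multiply]
        simp
  have hform := mat_form (g * ρ γ * g⁻¹)
  have hdet := mat_det (g * ρ γ * g⁻¹)
  rw [hconj, gramSum, Matrix.fromBlocks_transpose, Matrix.fromBlocks_multiply,
    Matrix.fromBlocks_multiply, Matrix.fromBlocks_inj] at hform
  have hA := hform.1
  have hD := hform.2.2.2
  simp only [Matrix.transpose_zero, Matrix.zero_mul, Matrix.mul_zero, add_zero, zero_add] at hA hD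
  have hAd : (Z1 * N11 γ * Z1⁻¹).det = 1 := by
    rw [Matrix.det_mul, Matrix.det_mul, mul_right_comm, ← Matrix.det_mul,
      Matrix.mul_nonsing_inv Z1 (isUnit_iff_ne_zero.mpr hZ1d), Matrix.det_one, one_mul, hdet1]
  have hDd : (Z2 * N22 γ * Z2⁻¹).det = 1 := by
    rw [hconj, Matrix.det_fromBlocks_zero₂₁, hAd, one_mul] at hdet
    exact hdet
  refine ⟨(mkSO _ hA hAd, mkSO _ hD hDd), ?_⟩
  apply mat_injective
  rw [mat_iota, hconj]
  rfl

theorem det_near (s : SOone p × SOone q) (δ : ℝ) : ∃ ε : ℝ, 0 < ε ∧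
    ∀ M : Matrix (Fin (p + 1) ⊕ Fin (q + 1)) (Fin (p + 1) ⊕ Fin (q + 1)) ℝ,
      ‖M - mat (iota p q s)‖ < ε → ∀ T : Matrix (Fin (q + 1)) (Fin (p + 1)) ℝ, ‖T‖ ≤ δ →
        |(M.toBlocks₁₁ + M.toBlocks₁₂ * T).det - 1| < 1 := by
  have hproper : ProperSpace (Matrix (Fin (q + 1)) (Fin (p + 1)) ℝ) :=
    FiniteDimensional.proper_real _
  obtain ⟨k11, k12, k21, k22⟩ := continuous_toBlocks (m := Fin (p + 1)) (n := Fin (q + 1))
  have hcont : Continuous fun z :
      Matrix (Fin (p + 1) ⊕ Fin (q + 1)) (Fin (p + 1) ⊕ Fin (q + 1)) ℝ ×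
      Matrix (Fin (q + 1)) (Fin (p + 1)) ℝ =>
      |(z.1.toBlocks₁₁ + z.1.toBlocks₁₂ * z.2).det - 1| := by
    have g1 := continuous_fst
      (X := Matrix (Fin (p + 1) ⊕ Fin (q + 1)) (Fin (p + 1) ⊕ Fin (q + 1)) ℝ)
      (Y := Matrix (Fin (q + 1)) (Fin (p + 1)) ℝ)
    have g2 := continuous_snd
      (X := Matrix (Fin (p + 1) ⊕ Fin (q + 1)) (Fin (p + 1) ⊕ Fin (q + 1)) ℝ)
      (Y := Matrix (Fin (q + 1)) (Fin (p + 1)) ℝ)
    exact ((((k11.comp g1).add ((k12.comp g1).matrix_mul g2)).matrix_det).sub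
      continuous_const).abs
  have hopen : IsOpen {z : Matrix (Fin (p + 1) ⊕ Fin (q + 1)) (Fin (p + 1) ⊕ Fin (q + 1)) ℝ ×
      Matrix (Fin (q + 1)) (Fin (p + 1)) ℝ |
      |(z.1.toBlocks₁₁ + z.1.toBlocks₁₂ * z.2).det - 1| < 1} :=
    isOpen_lt hcont continuous_const
  have hsub : ({mat (iota p q s)} : Set (Matrix (Fin (p + 1) ⊕ Fin (q + 1))
      (Fin (p + 1) ⊕ Fin (q + 1)) ℝ)) ×ˢ
      (Metric.closedBall (0 : Matrix (Fin (q + 1)) (Fin (p + 1)) ℝ) δ) ⊆
      {z | |(z.1.toBlocks₁₁ + z.1.toBlocks₁₂ * z.2).det - 1| < 1} := by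
    rintro ⟨M, T⟩ ⟨hM, -⟩
    have hM' : M = mat (iota p q s) := hM
    change |(M.toBlocks₁₁ + M.toBlocks₁₂ * T).det - 1| < 1
    rw [hM', mat_iota, Matrix.toBlocks_fromBlocks₁₁, Matrix.toBlocks_fromBlocks₁₂,
      Matrix.zero_mul, add_zero, mat_det]
    norm_num
  obtain ⟨u, v, hu, hv, hsu, hsv, huv⟩ := generalized_tube_lemma isCompact_singleton
    (isCompact_closedBall (0 : Matrix (Fin (q + 1)) (Fin (p + 1)) ℝ) δ) hopen hsub
  have hmem : u ∈ 𝓝 (mat (iota p q s)) := hu.mem_nhds (hsu rfl)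
  obtain ⟨ε, hε, hball⟩ := Metric.nhds_basis_ball.mem_iff.mp hmem
  refine ⟨ε, hε, fun M hM T hT => ?_⟩
  have h1 : M ∈ u := hball (by rw [Metric.mem_ball, dist_eq_norm]; exact hM)
  have h2 : T ∈ v := hsv (by simpa using hT)
  exact huv (Set.mk_mem_prod h1 h2)

/-- The negated form of the question. -/
theorem locallyConj (hp : 2 ≤ p) (hq : 2 ≤ q) (Γ : Subgroup (SOone p × SOone q))
    (hΓ : IsUniformLattice Γ) : LocallyConjInto (iota p q) Γ := by
  obtain ⟨δ, hδ, hδY⟩ := exists_delta p q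
  obtain ⟨S, hSf, hScl, ε, hε, hρ⟩ := exists_graph hp hq hΓ δ hδ
  choose η hη hdet using fun s : Γ => det_near (p := p) (q := q) s.1 δ
  refine ⟨⋂ s ∈ S, {f | ‖mat (f s) - mat (iota p q s)‖ < min ε (η s)}, ?_, ?_, ?_⟩
  · apply hSf.isOpen_biInter
    intro s _
    have hc : Continuous fun f : Γ → SOtwo p q => ‖mat (f s) - mat (iota p q s)‖ := by
      have h1 : Continuous fun f : Γ → SOtwo p q => mat (f s) :=
        continuous_mat.comp (continuous_apply s)
      have h2 : Continuous fun M : Matrix (Fin (p + 1) ⊕ Fin (q + 1))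
          (Fin (p + 1) ⊕ Fin (q + 1)) ℝ => ‖M - mat (iota p q s)‖ :=
        continuous_norm.comp (continuous_id.sub continuous_const)
      exact h2.comp h1
    exact isOpen_lt hc continuous_const
  · simp only [Set.mem_iInter]
    intro s _
    change ‖mat (iota p q s) - mat (iota p q s)‖ < _
    rw [sub_self, norm_zero]
    exact lt_min hε (hη s)
  · intro ρ hmem
    simp only [Set.mem_iInter] at hmem
    have h1 : ∀ s ∈ S, ‖mat (ρ s) - mat (iota p q s)‖ < min ε (η s) := hmem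
    obtain ⟨T, hT, hRT⟩ := hρ ρ fun s hs => (h1 s hs).trans_le (min_le_left _ _)
    obtain ⟨hY1, hY2⟩ := hδY T hT
    exact conj_of_graph ρ T hY1 hY2 hRT S hScl fun s hs =>
      hdet s _ ((h1 s hs).trans_le (min_le_right _ _)) T hT

/-- No non-trivial deformation. -/
theorem no_deformation (hp : 2 ≤ p) (hq : 2 ≤ q) (Γ : Subgroup (SOone p × SOone q))
    (hΓ : IsUniformLattice Γ) (ρ : unitInterval → (Γ →* SOtwo p q))
    (hρ : IsDeformation (iota p q) ρ) : ¬ IsNontrivial (iota p q) ρ := by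
  intro hnt
  obtain ⟨U, hUo, hU0, hU⟩ := locallyConj hp hq Γ hΓ
  have hc : Continuous fun t : unitInterval => (fun γ : Γ => ρ t γ) := continuous_pi hρ.1
  have h0 : (fun γ : Γ => ρ 0 γ) ∈ U := by
    have : (fun γ : Γ => ρ 0 γ) = fun γ : Γ => iota p q γ := funext hρ.2
    rw [this]; exact hU0
  have hO : IsOpen ((fun t : unitInterval => (fun γ : Γ => ρ t γ)) ⁻¹' U) := hUo.preimage hc
  let f : ℝ → unitInterval := Set.projIcc 0 1 zero_le_one
  have hf : Continuous f := continuous_projIcc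
  have hf0 : f 0 = 0 := Set.projIcc_left _
  have hO' : IsOpen (f ⁻¹' ((fun t : unitInterval => (fun γ : Γ => ρ t γ)) ⁻¹' U)) :=
    hO.preimage hf
  have hm0 : (0 : ℝ) ∈ f ⁻¹' ((fun t : unitInterval => (fun γ : Γ => ρ t γ)) ⁻¹' U) := by
    change (fun γ : Γ => ρ (f 0) γ) ∈ U
    rw [hf0]; exact h0
  obtain ⟨r, hr, hball⟩ := Metric.isOpen_iff.mp hO' 0 hm0
  set x : ℝ := min (r / 2) (1 / 2) with hx
  have hx0 : 0 < x := lt_min (by linarith) (by norm_num)
  have hx1 : x ≤ 1 := (min_le_right _ _).trans (by norm_num)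
  have hxr : x < r := (min_le_left _ _).trans_lt (by linarith)
  have hxm : x ∈ Metric.ball (0 : ℝ) r := by
    rw [Metric.mem_ball, dist_zero_right, Real.norm_of_nonneg hx0.le]; exact hxr
  have h1 : (fun γ : Γ => ρ (f x) γ) ∈ U := hball hxm
  have hfx : f x = ⟨x, hx0.le, hx1⟩ := Set.projIcc_of_mem _ ⟨hx0.le, hx1⟩
  have hpos : (0 : unitInterval) < f x := by
    rw [hfx]
    exact Subtype.mk_lt_mk.mpr hx0
  exact hnt (f x) hpos (hU _ h1)

end Pool.Agent.Lib.MPa37b3a
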