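import Pool.Agent.Lib.MPa37b3a.Defs

/-!
Bounded sets in `SO(1,p) × SO(1,q)`, bounded generation and consequences for uniform lattices.
-/

open Matrix Topology

namespace Pool.Agent.Lib.MPa37b3a

attribute [local instance] Matrix.linftyOpNormedAddCommGroup Matrix.linftyOpNormedSpace

theorem gram_sq (p : ℕ) : gram p * gram p = 1 := by
  rw [gram, Matrix.diagonal_mul_diagonal, ← Matrix.diagonal_one]
  congr 1
  ext i
  split_ifs <;> norm_num

theorem gram_transpose (p : ℕ) : (gram p)ᵀ = gram p := by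
  rw [gram, Matrix.diagonal_transpose]

section closed

variable {n : Type} [Fintype n] [DecidableEq n] {J : Matrix n n ℝ}

theorem isClosedEmbedding_mat : IsClosedEmbedding (mat (J := J)) := by
  have h1 : IsClosed ((specialOrthogonal J : Set (Matrix.SpecialLinearGroup n ℝ))) := by
    have : Continuous fun A : Matrix.SpecialLinearGroup n ℝ =>
        (A : Matrix n n ℝ)ᵀ * J * (A : Matrix n n ℝ) := by
      have hc : Continuous fun A : Matrix.SpecialLinearGroup n ℝ => (A : Matrix n n ℝ) :=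
        continuous_subtype_val
      exact (hc.matrix_transpose.mul continuous_const).mul hc
    exact isClosed_singleton.preimage this
  exact Matrix.SpecialLinearGroup.isClosedEmbedding_val.comp h1.isClosedEmbedding_subtypeVal

theorem continuous_mat : Continuous (mat (J := J)) := isClosedEmbedding_mat.continuous

theorem mat_inv_mul (g : specialOrthogonal J) : mat g⁻¹ * mat g = 1 := by
  rw [← mat_mul]; simp [mat_one]

theorem mat_mul_inv (g : specialOrthogonal J) : mat g * mat g⁻¹ = 1 := by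
  rw [← mat_mul]; simp [mat_one]

end closed

section SOone

variable {p : ℕ}

theorem mat_inv_eq (A : SOone p) : mat A⁻¹ = gram p * (mat A)ᵀ * gram p := by
  have h1 : (gram p * (mat A)ᵀ * gram p) * mat A = 1 := by
    rw [Matrix.mul_assoc, Matrix.mul_assoc, ← Matrix.mul_assoc ((mat A)ᵀ), mat_form, gram_sq]
  calc mat A⁻¹ = ((gram p * (mat A)ᵀ * gram p) * mat A) * mat A⁻¹ := by rw [h1, Matrix.one_mul]
    _ = (gram p * (mat A)ᵀ * gram p) * (mat A * mat A⁻¹) := by rw [Matrix.mul_assoc]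
    _ = _ := by rw [mat_mul_inv, Matrix.mul_one]

theorem mat_form' (A : SOone p) : mat A * gram p * (mat A)ᵀ = gram p := by
  have h := mat_mul_inv A
  rw [mat_inv_eq] at h
  calc mat A * gram p * (mat A)ᵀ = (mat A * (gram p * (mat A)ᵀ * gram p)) * gram p := by
        simp only [Matrix.mul_assoc, gram_sq, Matrix.mul_one]
    _ = gram p := by rw [h, Matrix.one_mul]

theorem inv_zero_zero (A : SOone p) : mat A⁻¹ 0 0 = mat A 0 0 := by
  rw [mat_inv_eq]
  simp only [gram, Matrix.mul_diagonal, Matrix.diagonal_mul]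
  simp

/-- entrywise form of `A J Aᵀ = J`. -/
theorem row_eq (A : SOone p) (i : Fin (p + 1)) :
    (mat A i 0) ^ 2 - ∑ j : Fin p, (mat A i j.succ) ^ 2 = gram p i i := by
  have h := congrFun (congrFun (mat_form' A) i) i
  rw [← h, Matrix.mul_apply, Fin.sum_univ_succ]
  simp only [gram, Matrix.mul_diagonal, Matrix.transpose_apply]
  simp only [if_true, Fin.succ_ne_zero, if_false]
  rw [sub_eq_add_neg, ← Finset.sum_neg_distrib]
  congr 1
  · ring
  · exact Finset.sum_congr rfl fun j _ => by ring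

theorem col_eq (A : SOone p) (i : Fin (p + 1)) :
    (mat A 0 i) ^ 2 - ∑ j : Fin p, (mat A j.succ i) ^ 2 = gram p i i := by
  have h := congrFun (congrFun (mat_form A) i) i
  rw [← h, Matrix.mul_apply, Fin.sum_univ_succ]
  simp only [gram, Matrix.mul_diagonal, Matrix.transpose_apply]
  simp only [if_true, Fin.succ_ne_zero, if_false]
  rw [sub_eq_add_neg, ← Finset.sum_neg_distrib]
  congr 1
  · ring
  · exact Finset.sum_congr rfl fun j _ => by ring

theorem gram_zero : gram p 0 0 = 1 := by simp [gram]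

theorem gram_succ (i : Fin p) : gram p i.succ i.succ = -1 := by simp [gram]

theorem abs_entry_le (A : SOone p) (i j : Fin (p + 1)) : |mat A i j| ≤ |mat A 0 0| := by
  have hcol0 := col_eq A 0
  rw [gram_zero] at hcol0
  have hrow0 := row_eq A 0
  rw [gram_zero] at hrow0
  have hi0 : ∀ i : Fin p, (mat A i.succ 0) ^ 2 ≤ (mat A 0 0) ^ 2 - 1 := by
    intro i
    have : (mat A i.succ 0) ^ 2 ≤ ∑ j : Fin p, (mat A j.succ 0) ^ 2 :=
      Finset.single_le_sum (f := fun j : Fin p => (mat A j.succ 0) ^ 2)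
        (fun _ _ => sq_nonneg _) (Finset.mem_univ i)
    linarith
  have h0j : ∀ j : Fin p, (mat A 0 j.succ) ^ 2 ≤ (mat A 0 0) ^ 2 - 1 := by
    intro i
    have : (mat A 0 i.succ) ^ 2 ≤ ∑ j : Fin p, (mat A 0 j.succ) ^ 2 :=
      Finset.single_le_sum (f := fun j : Fin p => (mat A 0 j.succ) ^ 2)
        (fun _ _ => sq_nonneg _) (Finset.mem_univ i)
    linarith
  rw [← sq_le_sq]
  refine Fin.cases ?_ (fun i => ?_) i
  · refine Fin.cases le_rfl (fun j => ?_) j
    have := h0j j
    linarith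
  · refine Fin.cases ?_ (fun j => ?_) j
    · have := hi0 i
      linarith
    · have h1 := row_eq A i.succ
      rw [gram_succ] at h1
      have h2 : (mat A i.succ j.succ) ^ 2 ≤ ∑ j : Fin p, (mat A i.succ j.succ) ^ 2 :=
        Finset.single_le_sum (f := fun j : Fin p => (mat A i.succ j.succ) ^ 2)
          (fun _ _ => sq_nonneg _) (Finset.mem_univ j)
      have h3 := hi0 i
      linarith

theorem norm_mat_le (A : SOone p) : ‖mat A‖ ≤ (p + 1) * |mat A 0 0| := by
  rw [Matrix.linfty_opNorm_def]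
  have : ∀ i, (∑ j, ‖mat A i j‖₊ : NNReal) ≤ (p + 1) * ‖mat A 0 0‖₊ := by
    intro i
    calc (∑ j, ‖mat A i j‖₊ : NNReal) ≤ ∑ j : Fin (p + 1), ‖mat A 0 0‖₊ := by
          apply Finset.sum_le_sum
          intro j _
          have := abs_entry_le A i j
          rw [← NNReal.coe_le_coe]
          simpa using this
      _ = (p + 1) * ‖mat A 0 0‖₊ := by simp
  have h2 : (Finset.univ.sup fun i => ∑ j, ‖mat A i j‖₊ : NNReal) ≤ (p + 1) * ‖mat A 0 0‖₊ :=
    Finset.sup_le fun i _ => this i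
  have h3 := NNReal.coe_le_coe.mpr h2
  simpa using h3

theorem abs_entry_le_norm {m n : Type} [Fintype m] [Fintype n] (A : Matrix m n ℝ) (i : m) (j : n) :
    |A i j| ≤ ‖A‖ := by
  rw [Matrix.linfty_opNorm_def]
  have h1 : ‖A i j‖₊ ≤ ∑ j, ‖A i j‖₊ :=
    Finset.single_le_sum (f := fun j => ‖A i j‖₊) (fun _ _ => bot_le) (Finset.mem_univ j)
  have h2 : (∑ j, ‖A i j‖₊ : NNReal) ≤ Finset.univ.sup fun i => ∑ j, ‖A i j‖₊ :=
    Finset.le_sup (f := fun i => ∑ j, ‖A i j‖₊) (Finset.mem_univ i)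
  have h3 := NNReal.coe_le_coe.mpr (h1.trans h2)
  simpa using h3

theorem norm_mat_inv_le (A : SOone p) : ‖mat A⁻¹‖ ≤ (p + 1) * ‖mat A‖ := by
  calc ‖mat A⁻¹‖ ≤ (p + 1) * |mat A⁻¹ 0 0| := norm_mat_le _
    _ = (p + 1) * |mat A 0 0| := by rw [inv_zero_zero]
    _ ≤ (p + 1) * ‖mat A‖ := by
        have := abs_entry_le_norm (mat A) 0 0
        gcongr

end SOone

end Pool.Agent.Lib.MPa37b3a
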