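import Pool.Agent.Lib.MPa37b3a.Boost

/-!
Consequences of being a uniform lattice: bounded fundamental set, finiteness of bounded
parts, finite generation.
-/

open Matrix Topology

namespace Pool.Agent.Lib.MPa37b3a

attribute [local instance] Matrix.linftyOpNormedAddCommGroup Matrix.linftyOpNormedSpace

variable {p q : ℕ}

/-- bounded subsets of `SO(1,p) × SO(1,q)`. -/
def bdd (p q : ℕ) (R : ℝ) : Set (SOone p × SOone q) := {h | ‖mat h.1‖ ≤ R ∧ ‖mat h.2‖ ≤ R}

theorem isCompact_bdd (R : ℝ) : IsCompact (bdd p q R) := by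
  have h1 : IsClosedEmbedding (fun h : SOone p × SOone q => (mat h.1, mat h.2)) :=
    isClosedEmbedding_mat.prodMap isClosedEmbedding_mat
  have h2 : IsCompact (Metric.closedBall (0 : Matrix (Fin (p + 1)) (Fin (p + 1)) ℝ) R ×ˢ
      Metric.closedBall (0 : Matrix (Fin (q + 1)) (Fin (q + 1)) ℝ) R) := by
    have : ProperSpace (Matrix (Fin (p + 1)) (Fin (p + 1)) ℝ) := FiniteDimensional.proper_real _
    have : ProperSpace (Matrix (Fin (q + 1)) (Fin (q + 1)) ℝ) := FiniteDimensional.proper_real _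
    exact (isCompact_closedBall _ _).prod (isCompact_closedBall _ _)
  have h3 := h1.isCompact_preimage h2
  convert h3 using 1
  ext h
  simp [bdd]

theorem isOpen_bdd' (R : ℝ) :
    IsOpen {h : SOone p × SOone q | ‖mat h.1‖ < R ∧ ‖mat h.2‖ < R} := by
  have c1 : Continuous fun h : SOone p × SOone q => ‖mat h.1‖ :=
    continuous_norm.comp (continuous_mat.comp continuous_fst)
  have c2 : Continuous fun h : SOone p × SOone q => ‖mat h.2‖ :=
    continuous_norm.comp (continuous_mat.comp continuous_snd)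
  exact (isOpen_lt c1 continuous_const).inter (isOpen_lt c2 continuous_const)

theorem exists_bdd_fundamental {Γ : Subgroup (SOone p × SOone q)} (hΓ : IsUniformLattice Γ) :
    ∃ R : ℝ, ∀ h : SOone p × SOone q, ∃ γ ∈ Γ, ∃ k ∈ bdd p q R, h = γ * k := by
  have := hΓ.2
  let π : SOone p × SOone q → MulAction.orbitRel.Quotient Γ (SOone p × SOone q) :=
    Quotient.mk _
  have hopen : IsOpenMap π := isOpenMap_quotient_mk'_mul
  let U : ℕ → Set (MulAction.orbitRel.Quotient Γ (SOone p × SOone q)) := fun n =>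
    π '' {h | ‖mat h.1‖ < n ∧ ‖mat h.2‖ < n}
  have hUo : ∀ n, IsOpen (U n) := fun n => hopen _ (isOpen_bdd' n)
  have hcov : (Set.univ : Set (MulAction.orbitRel.Quotient Γ (SOone p × SOone q))) ⊆
      ⋃ n, U n := by
    intro x _
    obtain ⟨h, rfl⟩ := Quotient.exists_rep x
    obtain ⟨n, hn⟩ := exists_nat_gt (max ‖mat h.1‖ ‖mat h.2‖)
    exact Set.mem_iUnion.mpr ⟨n, h, ⟨(le_max_left _ _).trans_lt hn, (le_max_right _ _).trans_lt hn⟩,
      rfl⟩
  have hmono : Monotone U := by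
    intro a b hab
    apply Set.image_mono
    intro h hh
    have : (a : ℝ) ≤ b := by exact_mod_cast hab
    exact ⟨hh.1.trans_le this, hh.2.trans_le this⟩
  obtain ⟨n, hn⟩ := (isCompact_univ).elim_directed_cover U hUo hcov hmono.directed_le
  refine ⟨n, fun h => ?_⟩
  obtain ⟨k, hk, hkh⟩ := hn (Set.mem_univ (π h))
  have hrel : MulAction.orbitRel Γ (SOone p × SOone q) k h := Quotient.exact hkh
  obtain ⟨γ, hγ⟩ := hrel
  refine ⟨((γ⁻¹ : Γ) : SOone p × SOone q), (γ⁻¹).2, k, ⟨hk.1.le, hk.2.le⟩, ?_⟩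
  have : ((γ : Γ) : SOone p × SOone q) * h = k := hγ
  rw [← this]; simp

theorem finite_bdd {Γ : Subgroup (SOone p × SOone q)} (hΓ : IsUniformLattice Γ) (R : ℝ) :
    {γ : SOone p × SOone q | γ ∈ Γ ∧ γ ∈ bdd p q R}.Finite := by
  have := hΓ.1
  have hcl : IsClosed (Γ : Set (SOone p × SOone q)) := Subgroup.isClosed_of_discrete
  have hc : IsCompact ((Γ : Set (SOone p × SOone q)) ∩ bdd p q R) :=
    (isCompact_bdd R).inter_left hcl
  have hd : IsDiscrete ((Γ : Set (SOone p × SOone q)) ∩ bdd p q R) := by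
    have : IsDiscrete (Γ : Set (SOone p × SOone q)) := ⟨hΓ.1⟩
    exact this.mono Set.inter_subset_left
  exact hc.finite hd

theorem norm_mat_mul_le {n : ℕ} (A B : SOone n) : ‖mat (A * B)‖ ≤ ‖mat A‖ * ‖mat B‖ := by
  rw [mat_mul]; exact Matrix.linfty_opNorm_mul _ _

theorem bdd_mono {R R' : ℝ} (h : R ≤ R') : bdd p q R ⊆ bdd p q R' :=
  fun _ hx => ⟨hx.1.trans h, hx.2.trans h⟩

theorem bdd_mul {R R' : ℝ} (hR : 0 ≤ R) {g h : SOone p × SOone q} (hg : g ∈ bdd p q R)
    (hh : h ∈ bdd p q R') : g * h ∈ bdd p q (R * R') :=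
  ⟨(norm_mat_mul_le _ _).trans (mul_le_mul hg.1 hh.1 (norm_nonneg _) hR),
   (norm_mat_mul_le _ _).trans (mul_le_mul hg.2 hh.2 (norm_nonneg _) hR)⟩

theorem bdd_inv {R : ℝ} {g : SOone p × SOone q} (hg : g ∈ bdd p q R) :
    g⁻¹ ∈ bdd p q (((p + q + 1 : ℕ) : ℝ) * R) := by
  have h0 : 0 ≤ R := (norm_nonneg _).trans hg.1
  constructor
  · calc ‖mat g.1⁻¹‖ ≤ (p + 1) * ‖mat g.1‖ := norm_mat_inv_le _
      _ ≤ ((p + q + 1 : ℕ) : ℝ) * R := by
        apply mul_le_mul _ hg.1 (norm_nonneg _) (Nat.cast_nonneg _)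
        push_cast
        have : (0 : ℝ) ≤ q := Nat.cast_nonneg _
        linarith
  · calc ‖mat g.2⁻¹‖ ≤ (q + 1) * ‖mat g.2‖ := norm_mat_inv_le _
      _ ≤ ((p + q + 1 : ℕ) : ℝ) * R := by
        apply mul_le_mul _ hg.2 (norm_nonneg _) (Nat.cast_nonneg _)
        push_cast
        have : (0 : ℝ) ≤ p := Nat.cast_nonneg _
        linarith

theorem one_le_norm_mat {n : ℕ} (A : SOone n) : 1 ≤ ‖mat A‖ := by
  have hsq : 1 ≤ (mat A 0 0) ^ 2 := by
    have h := col_eq A 0
    rw [gram_zero] at h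
    have : 0 ≤ ∑ j : Fin n, (mat A j.succ 0) ^ 2 := Finset.sum_nonneg fun _ _ => sq_nonneg _
    linarith
  have h1 : 1 ≤ |mat A 0 0| := by
    rw [← sq_abs] at hsq
    nlinarith [abs_nonneg (mat A 0 0)]
  exact h1.trans (abs_entry_le_norm _ _ _)

theorem gen_H (hp : 1 ≤ p) (hq : 1 ≤ q) (h : SOone p × SOone q) :
    h ∈ Subgroup.closure (bdd p q (((p + q + 1 : ℕ) : ℝ) * 2)) := by
  have key1 : ∀ A : SOone p, ((A, 1) : SOone p × SOone q) ∈
      Subgroup.closure (bdd p q (((p + q + 1 : ℕ) : ℝ) * 2)) := by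
    intro A
    have h1 : A ∈ Subgroup.closure {B : SOone p | |mat B 0 0| ≤ 2} := closure_bounded hp A
    have h2 : MonoidHom.inl (SOone p) (SOone q) A ∈
        (Subgroup.closure {B : SOone p | |mat B 0 0| ≤ 2}).map (MonoidHom.inl (SOone p) (SOone q)) :=
      Subgroup.mem_map_of_mem _ h1
    rw [MonoidHom.map_closure] at h2
    refine Subgroup.closure_mono ?_ h2
    rintro _ ⟨B, hB, rfl⟩
    constructor
    · calc ‖mat B‖ ≤ (p + 1) * |mat B 0 0| := norm_mat_le _
        _ ≤ ((p + q + 1 : ℕ) : ℝ) * 2 := by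
          apply mul_le_mul _ hB (abs_nonneg _) (Nat.cast_nonneg _)
          push_cast
          have : (0 : ℝ) ≤ q := Nat.cast_nonneg _
          linarith
    · calc ‖mat (1 : SOone q)‖ ≤ (q + 1) * |mat (1 : SOone q) 0 0| := norm_mat_le _
        _ = (q + 1) * 1 := by rw [mat_one]; simp
        _ ≤ ((p + q + 1 : ℕ) : ℝ) * 2 := by
          push_cast
          have : (0 : ℝ) ≤ p := Nat.cast_nonneg _
          have : (0 : ℝ) ≤ q := Nat.cast_nonneg _
          nlinarith
  have key2 : ∀ A : SOone q, ((1, A) : SOone p × SOone q) ∈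
      Subgroup.closure (bdd p q (((p + q + 1 : ℕ) : ℝ) * 2)) := by
    intro A
    have h1 : A ∈ Subgroup.closure {B : SOone q | |mat B 0 0| ≤ 2} := closure_bounded hq A
    have h2 : MonoidHom.inr (SOone p) (SOone q) A ∈
        (Subgroup.closure {B : SOone q | |mat B 0 0| ≤ 2}).map (MonoidHom.inr (SOone p) (SOone q)) :=
      Subgroup.mem_map_of_mem _ h1
    rw [MonoidHom.map_closure] at h2
    refine Subgroup.closure_mono ?_ h2
    rintro _ ⟨B, hB, rfl⟩
    constructor
    · calc ‖mat (1 : SOone p)‖ ≤ (p + 1) * |mat (1 : SOone p) 0 0| := norm_mat_le _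
        _ = (p + 1) * 1 := by rw [mat_one]; simp
        _ ≤ ((p + q + 1 : ℕ) : ℝ) * 2 := by
          push_cast
          have : (0 : ℝ) ≤ p := Nat.cast_nonneg _
          have : (0 : ℝ) ≤ q := Nat.cast_nonneg _
          nlinarith
    · calc ‖mat B‖ ≤ (q + 1) * |mat B 0 0| := norm_mat_le _
        _ ≤ ((p + q + 1 : ℕ) : ℝ) * 2 := by
          apply mul_le_mul _ hB (abs_nonneg _) (Nat.cast_nonneg _)
          push_cast
          have : (0 : ℝ) ≤ p := Nat.cast_nonneg _
          linarith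
  have := Subgroup.mul_mem _ (key1 h.1) (key2 h.2)
  simpa using this

theorem finitely_generated (hp : 1 ≤ p) (hq : 1 ≤ q) {Γ : Subgroup (SOone p × SOone q)}
    (hΓ : IsUniformLattice Γ) :
    ∃ S : Set (SOone p × SOone q), S.Finite ∧ Subgroup.closure S = Γ := by
  obtain ⟨R0, hR0⟩ := exists_bdd_fundamental hΓ
  set R : ℝ := max R0 1 with hRdef
  have hR1 : 1 ≤ R := le_max_right _ _
  have hfund : ∀ h : SOone p × SOone q, ∃ γ ∈ Γ, ∃ k ∈ bdd p q R, h = γ * k := by
    intro h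
    obtain ⟨γ, hγ, k, hk, e⟩ := hR0 h
    exact ⟨γ, hγ, k, bdd_mono (le_max_left _ _) hk, e⟩
  set N : ℝ := ((p + q + 1 : ℕ) : ℝ) with hN
  have hN1 : 1 ≤ N := by rw [hN]; push_cast; have : (0 : ℝ) ≤ p := Nat.cast_nonneg _
                         have : (0 : ℝ) ≤ q := Nat.cast_nonneg _
                         linarith
  set T : ℝ := R * (N * (N * 2)) * (N * R) with hT
  set S : Set (SOone p × SOone q) := {γ | γ ∈ Γ ∧ γ ∈ bdd p q T} with hS
  have hN2 : 1 ≤ N * 2 := by linarith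
  have hNN2 : 1 ≤ N * (N * 2) := by nlinarith
  have hNR : 1 ≤ N * R := by nlinarith
  have hNR' : R ≤ N * R := by nlinarith
  have hT1 : N * R ≤ T := by
    rw [hT]
    have : 1 ≤ R * (N * (N * 2)) := by nlinarith
    nlinarith
  have hT2 : R ≤ T := hNR'.trans hT1
  refine ⟨S, finite_bdd hΓ T, ?_⟩
  apply le_antisymm
  · rw [Subgroup.closure_le]
    intro x hx
    exact hx.1
  · have key : ∀ h ∈ Subgroup.closure (bdd p q (N * 2)),
        ∃ γ ∈ Subgroup.closure S, ∃ k ∈ bdd p q R, h = γ * k := by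
      intro h hh
      have step : ∀ x y : SOone p × SOone q, y ∈ bdd p q (N * (N * 2)) →
          (∃ γ ∈ Subgroup.closure S, ∃ k ∈ bdd p q R, x = γ * k) →
          (∃ γ ∈ Subgroup.closure S, ∃ k ∈ bdd p q R, x * y = γ * k) := by
        rintro x y hy ⟨γ, hγ, k, hk, rfl⟩
        obtain ⟨γ', hγ', k', hk', e⟩ := hfund (k * y)
        have h1 : γ' = k * y * k'⁻¹ := by rw [e]; simp
        have h2 : γ' ∈ S := by
          refine ⟨hγ', ?_⟩
          rw [h1]
          exact bdd_mul (by positivity) (bdd_mul (by linarith) hk hy) (bdd_inv hk')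
        refine ⟨γ * γ', Subgroup.mul_mem _ hγ (Subgroup.subset_closure h2), k', hk', ?_⟩
        rw [mul_assoc, e, mul_assoc]
      induction hh using Subgroup.closure_induction_right with
      | one =>
        obtain ⟨γ', hγ', k', hk', e⟩ := hfund 1
        have h1 : γ' = k'⁻¹ := eq_inv_of_mul_eq_one_left e.symm
        refine ⟨γ', Subgroup.subset_closure ⟨hγ', ?_⟩, k', hk', e⟩
        rw [h1]
        exact bdd_mono hT1 (bdd_inv hk')
      | mul_right x hx y hy ih =>
        exact step x y (bdd_mono (by nlinarith) hy) ih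
      | mul_inv_cancel x hx y hy ih =>
        exact step x y⁻¹ (bdd_inv hy) ih
    intro γ hγ
    obtain ⟨γ', hγ', k, hk, e⟩ := key γ (gen_H hp hq γ)
    have hkΓ : k ∈ Γ := by
      have : k = γ'⁻¹ * γ := by rw [e]; simp
      rw [this]
      have hle : Subgroup.closure S ≤ Γ := by
        rw [Subgroup.closure_le]
        intro x hx
        exact hx.1
      exact Γ.mul_mem (Γ.inv_mem (hle hγ')) hγ
    rw [e]
    exact Subgroup.mul_mem _ hγ' (Subgroup.subset_closure ⟨hkΓ, bdd_mono hT2 hk⟩)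

end Pool.Agent.Lib.MPa37b3a
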