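import Pool.Agent.Lib.MPa37b3a.Vanish

/-!
Homomorphisms close to `ι|_Γ` have an invariant graph close to `ℝ^{1+p}`.
-/

open Matrix Topology Filter

namespace Pool.Agent.Lib.MPa37b3a

attribute [local instance] Matrix.linftyOpNormedAddCommGroup Matrix.linftyOpNormedSpace

variable {p q : ℕ}

theorem intertwiner_zero (hq : 1 ≤ q) {Γ : Subgroup (SOone p × SOone q)}
    (hΓ : IsUniformLattice Γ) (T : Matrix (Fin (q + 1)) (Fin (p + 1)) ℝ)
    (hT : ∀ γ : Γ, mat γ.1.2 * T = T * mat γ.1.1) : T = 0 := by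
  obtain ⟨R0, hR0⟩ := exists_bdd_fundamental hΓ
  set R : ℝ := max R0 1 with hRdef
  have hR1 : 1 ≤ R := le_max_right _ _
  have hfund : ∀ h : SOone p × SOone q, ∃ γ : Γ, ∃ k ∈ bdd p q R, h = γ.1 * k := by
    intro h
    obtain ⟨γ, hγ, k, hk, e⟩ := hR0 h
    exact ⟨⟨γ, hγ⟩, k, bdd_mono (le_max_left _ _) hk, e⟩
  set N : ℝ := ((p + q + 1 : ℕ) : ℝ) with hN
  have hN0 : 0 ≤ N := Nat.cast_nonneg _
  have hall : ∀ h : SOone p × SOone q, ‖mat (h⁻¹).2 * T * mat h.1‖ ≤ (N * R) * ‖T‖ * R := by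
    intro h
    obtain ⟨γ, k, hk, e⟩ := hfund h
    have h1 : mat (h⁻¹).2 * T * mat h.1 = mat (k⁻¹).2 * T * mat k.1 := by
      have e1 : mat h.1 = mat γ.1.1 * mat k.1 := by rw [e]; rfl
      have e2 : mat (h⁻¹).2 = mat (k⁻¹).2 * mat (γ.1⁻¹).2 := by
        rw [← mat_mul, e, _root_.mul_inv_rev]; rfl
      have e3 : mat (γ.1⁻¹).2 * (T * mat γ.1.1) = T := by
        rw [← hT γ, ← Matrix.mul_assoc, ← mat_mul]
        have : (γ.1⁻¹).2 * γ.1.2 = 1 := by simp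
        rw [this, mat_one, Matrix.one_mul]
      rw [e1, e2]
      calc mat (k⁻¹).2 * mat (γ.1⁻¹).2 * T * (mat γ.1.1 * mat k.1)
          = mat (k⁻¹).2 * (mat (γ.1⁻¹).2 * (T * mat γ.1.1)) * mat k.1 := by
            simp only [Matrix.mul_assoc]
        _ = _ := by rw [e3]
    rw [h1]
    calc ‖mat (k⁻¹).2 * T * mat k.1‖ ≤ ‖mat (k⁻¹).2 * T‖ * ‖mat k.1‖ :=
          Matrix.linfty_opNorm_mul _ _
      _ ≤ ‖mat (k⁻¹).2‖ * ‖T‖ * ‖mat k.1‖ := by gcongr; exact Matrix.linfty_opNorm_mul _ _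
      _ ≤ (N * R) * ‖T‖ * R := by
          have h1 := (bdd_inv hk).2
          have h2 := hk.1
          gcongr
  have hcol : ∀ v, T *ᵥ v = 0 := by
    intro v
    apply eq_zero_of_bounded_orbit hq _ ((N * R) * ‖T‖ * R * ‖v‖)
    intro g
    have h3 := hall (1, g⁻¹)
    have e4 : mat (((1 : SOone p), g⁻¹)⁻¹).2 = mat g := by simp
    have e5 : mat ((1 : SOone p), g⁻¹).1 = 1 := mat_one
    rw [e4, e5, Matrix.mul_one] at h3
    rw [Matrix.mulVec_mulVec]
    calc ‖(mat g * T) *ᵥ v‖ ≤ ‖mat g * T‖ * ‖v‖ := Matrix.linfty_opNorm_mulVec _ _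
      _ ≤ _ := by gcongr
  have : Matrix.toLin' T = 0 := by
    ext1 v
    exact LinearMap.ext fun x => by simp [hcol]
  exact (LinearEquiv.map_eq_zero_iff _).mp this

/-- The lower left block of `u_T⁻¹ M u_T`, where `u_T` is the unipotent matrix sending `ℝ^{1+p}`
to the graph of `T`. -/
def RT (T : Matrix (Fin (q + 1)) (Fin (p + 1)) ℝ)
    (M : Matrix (Fin (p + 1) ⊕ Fin (q + 1)) (Fin (p + 1) ⊕ Fin (q + 1)) ℝ) :
    Matrix (Fin (q + 1)) (Fin (p + 1)) ℝ :=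
  M.toBlocks₂₁ + M.toBlocks₂₂ * T - T * M.toBlocks₁₁ - T * M.toBlocks₁₂ * T

theorem RT_mul (T : Matrix (Fin (q + 1)) (Fin (p + 1)) ℝ)
    (M M' : Matrix (Fin (p + 1) ⊕ Fin (q + 1)) (Fin (p + 1) ⊕ Fin (q + 1)) ℝ) :
    RT T (M * M') = RT T M * (M'.toBlocks₁₁ + M'.toBlocks₁₂ * T) +
      (M.toBlocks₂₂ - T * M.toBlocks₁₂) * RT T M' := by
  have hM := Matrix.fromBlocks_toBlocks M
  have hM' := Matrix.fromBlocks_toBlocks M'
  have h : M * M' = Matrix.fromBlocks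
      (M.toBlocks₁₁ * M'.toBlocks₁₁ + M.toBlocks₁₂ * M'.toBlocks₂₁)
      (M.toBlocks₁₁ * M'.toBlocks₁₂ + M.toBlocks₁₂ * M'.toBlocks₂₂)
      (M.toBlocks₂₁ * M'.toBlocks₁₁ + M.toBlocks₂₂ * M'.toBlocks₂₁)
      (M.toBlocks₂₁ * M'.toBlocks₁₂ + M.toBlocks₂₂ * M'.toBlocks₂₂) := by
    conv_lhs => rw [← hM, ← hM', Matrix.fromBlocks_multiply]
  unfold RT
  rw [h]
  simp only [Matrix.toBlocks_fromBlocks₁₁, Matrix.toBlocks_fromBlocks₁₂,
    Matrix.toBlocks_fromBlocks₂₁, Matrix.toBlocks_fromBlocks₂₂, Matrix.mul_add, Matrix.add_mul,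
    Matrix.mul_sub, Matrix.sub_mul, Matrix.mul_assoc]
  abel

theorem RT_one (T : Matrix (Fin (q + 1)) (Fin (p + 1)) ℝ) :
    RT T (1 : Matrix (Fin (p + 1) ⊕ Fin (q + 1)) (Fin (p + 1) ⊕ Fin (q + 1)) ℝ) = 0 := by
  unfold RT
  rw [← Matrix.fromBlocks_one]
  simp only [Matrix.toBlocks_fromBlocks₁₁, Matrix.toBlocks_fromBlocks₁₂,
    Matrix.toBlocks_fromBlocks₂₁, Matrix.toBlocks_fromBlocks₂₂]
  simp

theorem RT_add (T X : Matrix (Fin (q + 1)) (Fin (p + 1)) ℝ) (ε : ℝ)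
    (M : Matrix (Fin (p + 1) ⊕ Fin (q + 1)) (Fin (p + 1) ⊕ Fin (q + 1)) ℝ) :
    RT (T + ε • X) M = RT T M + ε • (M.toBlocks₂₂ * X - X * M.toBlocks₁₁ -
      T * M.toBlocks₁₂ * X - X * M.toBlocks₁₂ * T - ε • (X * M.toBlocks₁₂ * X)) := by
  unfold RT
  simp only [Matrix.mul_add, Matrix.add_mul, Matrix.mul_smul, Matrix.smul_mul, smul_sub]
  module

theorem continuous_toBlocks {m n : Type} :
    (Continuous fun M : Matrix (m ⊕ n) (m ⊕ n) ℝ => M.toBlocks₁₁) ∧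
    (Continuous fun M : Matrix (m ⊕ n) (m ⊕ n) ℝ => M.toBlocks₁₂) ∧
    (Continuous fun M : Matrix (m ⊕ n) (m ⊕ n) ℝ => M.toBlocks₂₁) ∧
    (Continuous fun M : Matrix (m ⊕ n) (m ⊕ n) ℝ => M.toBlocks₂₂) :=
  ⟨continuous_matrix fun _ _ => continuous_id.matrix_elem _ _,
   continuous_matrix fun _ _ => continuous_id.matrix_elem _ _,
   continuous_matrix fun _ _ => continuous_id.matrix_elem _ _,
   continuous_matrix fun _ _ => continuous_id.matrix_elem _ _⟩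

theorem continuous_RT :
    Continuous fun x : (Matrix (Fin (q + 1)) (Fin (p + 1)) ℝ) ×
      (Matrix (Fin (p + 1) ⊕ Fin (q + 1)) (Fin (p + 1) ⊕ Fin (q + 1)) ℝ) => RT x.1 x.2 := by
  unfold RT
  obtain ⟨h11, h12, h21, h22⟩ := continuous_toBlocks (m := Fin (p + 1)) (n := Fin (q + 1))
  have hT := continuous_fst (X := Matrix (Fin (q + 1)) (Fin (p + 1)) ℝ)
    (Y := Matrix (Fin (p + 1) ⊕ Fin (q + 1)) (Fin (p + 1) ⊕ Fin (q + 1)) ℝ)
  have hM := continuous_snd (X := Matrix (Fin (q + 1)) (Fin (p + 1)) ℝ)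
    (Y := Matrix (Fin (p + 1) ⊕ Fin (q + 1)) (Fin (p + 1) ⊕ Fin (q + 1)) ℝ)
  exact (((h21.comp hM).add ((h22.comp hM).matrix_mul hT)).sub
    (hT.matrix_mul (h11.comp hM))).sub ((hT.matrix_mul (h12.comp hM)).matrix_mul hT)

theorem ultra_lim {E : Type*} [NormedAddCommGroup E] [ProperSpace E] (𝒰 : Ultrafilter ℕ)
    (x : ℕ → E) (C : ℝ) (h : ∀ᶠ n in (𝒰 : Filter ℕ), ‖x n‖ ≤ C) :
    ∃ y, Tendsto x 𝒰 (𝓝 y) := by
  have h1 : IsCompact (Metric.closedBall (0 : E) C) := isCompact_closedBall _ _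
  have h2 : Metric.closedBall (0 : E) C ∈ 𝒰.map x := by
    change ∀ᶠ n in (𝒰 : Filter ℕ), x n ∈ Metric.closedBall (0 : E) C
    filter_upwards [h] with n hn
    simpa using hn
  obtain ⟨y, -, hy⟩ := h1.ultrafilter_le_nhds (𝒰.map x) (by simpa using h2)
  exact ⟨y, hy⟩

theorem exists_graph (hp : 2 ≤ p) (hq : 2 ≤ q) {Γ : Subgroup (SOone p × SOone q)}
    (hΓ : IsUniformLattice Γ) (δ : ℝ) (hδ : 0 < δ) :
    ∃ S : Set Γ, S.Finite ∧ Submonoid.closure S = ⊤ ∧ ∃ ε : ℝ, 0 < ε ∧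
      ∀ ρ : Γ →* SOtwo p q, (∀ s ∈ S, ‖mat (ρ s) - mat (iota p q s)‖ < ε) →
        ∃ T : Matrix (Fin (q + 1)) (Fin (p + 1)) ℝ, ‖T‖ ≤ δ ∧ ∀ γ : Γ, RT T (mat (ρ γ)) = 0 := by
  -- a finite generating set
  obtain ⟨S0, hS0f, hS0⟩ := finitely_generated (by omega) (by omega) hΓ
  have hFG : Group.FG Γ := (Group.fg_iff_subgroup_fg Γ).mpr ((Subgroup.fg_iff Γ).mpr ⟨S0, hS0, hS0f⟩)
  have hMFG : Monoid.FG Γ := Group.fg_iff_monoid_fg.mp hFG
  obtain ⟨S, hScl, hSf⟩ := Monoid.fg_iff.mp hMFG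
  refine ⟨S, hSf, hScl, ?_⟩
  by_contra hcon
  push Not at hcon
  have hn : ∀ n : ℕ, (0 : ℝ) < 1 / ((n : ℝ) + 1) := fun n => Nat.one_div_pos_of_nat
  choose ρ hρ hbad using fun n : ℕ => hcon (1 / ((n : ℝ) + 1)) (hn n)
  set 𝒰 : Ultrafilter ℕ := hyperfilter ℕ with h𝒰
  have h𝒰le : (𝒰 : Filter ℕ) ≤ atTop := by
    rw [← Nat.cofinite_eq_atTop]; exact hyperfilter_le_cofinite
  have hproper : ProperSpace (Matrix (Fin (q + 1)) (Fin (p + 1)) ℝ) :=
    FiniteDimensional.proper_real _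
  -- convergence of ρ n
  have hconvS : ∀ s ∈ S, Tendsto (fun n => mat (ρ n s)) 𝒰 (𝓝 (mat (iota p q s))) := by
    intro s hs
    refine tendsto_iff_norm_sub_tendsto_zero.mpr ?_
    have h1 : Tendsto (fun n : ℕ => 1 / ((n : ℝ) + 1)) 𝒰 (𝓝 0) :=
      tendsto_one_div_add_atTop_nhds_zero_nat.mono_left h𝒰le
    exact squeeze_zero (fun n => norm_nonneg _) (fun n => (hρ n s hs).le) h1
  have hconv : ∀ γ : Γ, Tendsto (fun n => mat (ρ n γ)) 𝒰 (𝓝 (mat (iota p q γ))) := by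
    intro γ
    have hγ : γ ∈ Submonoid.closure S := by rw [hScl]; trivial
    induction hγ using Submonoid.closure_induction with
    | mem s hs => exact hconvS s hs
    | one =>
      have h1 : ∀ n, mat (ρ n 1) = 1 := fun n => by rw [map_one, mat_one]
      have h2 : mat (iota p q ((1 : Γ) : SOone p × SOone q)) = 1 := by
        rw [OneMemClass.coe_one, map_one, mat_one]
      simp only [h1, h2]
      exact tendsto_const_nhds
    | mul x y hx hy ihx ihy =>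
      have h1 : ∀ n, mat (ρ n (x * y)) = mat (ρ n x) * mat (ρ n y) := fun n => by
        rw [map_mul, mat_mul]
      have h2 : mat (iota p q ((x * y : Γ) : SOone p × SOone q)) =
          mat (iota p q x) * mat (iota p q y) := by
        rw [Subgroup.coe_mul, map_mul, mat_mul]
      simp only [h1, h2]
      have hc : Continuous fun z : Matrix (Fin (p + 1) ⊕ Fin (q + 1)) (Fin (p + 1) ⊕ Fin (q + 1)) ℝ ×
          Matrix (Fin (p + 1) ⊕ Fin (q + 1)) (Fin (p + 1) ⊕ Fin (q + 1)) ℝ => z.1 * z.2 :=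
        continuous_fst.matrix_mul continuous_snd
      exact (hc.tendsto (mat (iota p q x), mat (iota p q y))).comp (ihx.prodMk_nhds ihy)
  obtain ⟨k11, k12, k21, k22⟩ := continuous_toBlocks (m := Fin (p + 1)) (n := Fin (q + 1))
  have b11 : ∀ γ : Γ, (mat (iota p q γ)).toBlocks₁₁ = mat γ.1.1 := fun γ => by
    rw [mat_iota, Matrix.toBlocks_fromBlocks₁₁]
  have b12 : ∀ γ : Γ, (mat (iota p q γ)).toBlocks₁₂ = 0 := fun γ => by
    rw [mat_iota, Matrix.toBlocks_fromBlocks₁₂]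
  have b21 : ∀ γ : Γ, (mat (iota p q γ)).toBlocks₂₁ = 0 := fun γ => by
    rw [mat_iota, Matrix.toBlocks_fromBlocks₂₁]
  have b22 : ∀ γ : Γ, (mat (iota p q γ)).toBlocks₂₂ = mat γ.1.2 := fun γ => by
    rw [mat_iota, Matrix.toBlocks_fromBlocks₂₂]
  have c11 : ∀ γ : Γ, Tendsto (fun n => (mat (ρ n γ)).toBlocks₁₁) 𝒰 (𝓝 (mat γ.1.1)) := fun γ => by
    rw [← b11]; exact (k11.tendsto _).comp (hconv γ)
  have c12 : ∀ γ : Γ, Tendsto (fun n => (mat (ρ n γ)).toBlocks₁₂) 𝒰 (𝓝 0) := fun γ => by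
    rw [← b12 γ]; exact (k12.tendsto _).comp (hconv γ)
  have c21 : ∀ γ : Γ, Tendsto (fun n => (mat (ρ n γ)).toBlocks₂₁) 𝒰 (𝓝 0) := fun γ => by
    rw [← b21 γ]; exact (k21.tendsto _).comp (hconv γ)
  have c22 : ∀ γ : Γ, Tendsto (fun n => (mat (ρ n γ)).toBlocks₂₂) 𝒰 (𝓝 (mat γ.1.2)) := fun γ => by
    rw [← b22]; exact (k22.tendsto _).comp (hconv γ)
  -- minimisers
  set Sf : Finset Γ := hSf.toFinset with hSfdef
  have hSmem : ∀ s, s ∈ Sf ↔ s ∈ S := fun s => hSf.mem_toFinset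
  let En : ℕ → Matrix (Fin (q + 1)) (Fin (p + 1)) ℝ → ℝ := fun n T =>
    ∑ s ∈ Sf, ‖RT T (mat (ρ n s))‖
  have hEcont : ∀ n, Continuous (En n) := by
    intro n
    refine continuous_finsetSum _ fun s _ => ?_
    exact continuous_norm.comp (continuous_RT.comp (continuous_id.prodMk continuous_const))
  have hmin : ∀ n, ∃ T ∈ Metric.closedBall (0 : Matrix (Fin (q + 1)) (Fin (p + 1)) ℝ) δ,
      IsMinOn (En n) (Metric.closedBall (0 : Matrix (Fin (q + 1)) (Fin (p + 1)) ℝ) δ) T := by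
    intro n
    exact (isCompact_closedBall _ _).exists_isMinOn ⟨0, by simp [hδ.le]⟩ (hEcont n).continuousOn
  choose T hTball hTmin using hmin
  have hTnorm : ∀ n, ‖T n‖ ≤ δ := fun n => by simpa using hTball n
  -- an invariant graph for all generators is invariant
  have hgen : ∀ n (T' : Matrix (Fin (q + 1)) (Fin (p + 1)) ℝ),
      (∀ s ∈ S, RT T' (mat (ρ n s)) = 0) → ∀ γ : Γ, RT T' (mat (ρ n γ)) = 0 := by
    intro n T' hT' γ
    have hγ : γ ∈ Submonoid.closure S := by rw [hScl]; trivial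
    induction hγ using Submonoid.closure_induction with
    | mem s hs => exact hT' s hs
    | one => rw [map_one, mat_one, RT_one]
    | mul x y hx hy ihx ihy =>
      rw [map_mul, mat_mul, RT_mul, ihx, ihy, Matrix.zero_mul, Matrix.mul_zero, add_zero]
  set e : ℕ → ℝ := fun n => En n (T n) with he
  have hepos : ∀ n, 0 < e n := by
    intro n
    have h0 : 0 ≤ e n := Finset.sum_nonneg fun _ _ => norm_nonneg _
    rcases h0.lt_or_eq with h1 | h1
    · exact h1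
    · exfalso
      have h2 : ∀ s ∈ Sf, ‖RT (T n) (mat (ρ n s))‖ = 0 :=
        (Finset.sum_eq_zero_iff_of_nonneg fun _ _ => norm_nonneg _).mp h1.symm
      obtain ⟨γ, hγ⟩ := hbad n (T n) (hTnorm n)
      apply hγ
      exact hgen n (T n) (fun s hs => norm_eq_zero.mp (h2 s ((hSmem s).mpr hs))) γ
  -- e n → 0
  have he0 : Tendsto e 𝒰 (𝓝 0) := by
    have h1 : ∀ n, e n ≤ En n 0 := fun n => hTmin n (by simp [hδ.le])
    have h2 : Tendsto (fun n => En n 0) 𝒰 (𝓝 0) := by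
      have h3 : Tendsto (fun n => ∑ s ∈ Sf, ‖RT 0 (mat (ρ n s))‖) 𝒰 (𝓝 (∑ s ∈ Sf, (0 : ℝ))) := by
        refine tendsto_finsetSum _ fun s _ => ?_
        have h4 : ∀ n, RT 0 (mat (ρ n s)) = (mat (ρ n s)).toBlocks₂₁ := fun n => by
          unfold RT; simp
        simp only [h4]
        have := (continuous_norm.tendsto (0 : Matrix (Fin (q + 1)) (Fin (p + 1)) ℝ)).comp (c21 s)
        rwa [norm_zero] at this
      simpa using h3
    exact squeeze_zero (fun n => (hepos n).le) h1 h2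
  -- T n → 0
  obtain ⟨T', hT'⟩ := ultra_lim 𝒰 T δ (Eventually.of_forall hTnorm)
  have hRTlim : ∀ γ : Γ, Tendsto (fun n => RT (T n) (mat (ρ n γ))) 𝒰
      (𝓝 (mat γ.1.2 * T' - T' * mat γ.1.1)) := by
    intro γ
    have h1 := (continuous_RT.tendsto (T', mat (iota p q γ))).comp (hT'.prodMk_nhds (hconv γ))
    have h2 : RT T' (mat (iota p q γ)) = mat γ.1.2 * T' - T' * mat γ.1.1 := by
      unfold RT
      rw [b11, b12, b21, b22]; simp
    simp only [h2] at h1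
    exact h1
  have hT'0 : T' = 0 := by
    apply intertwiner_zero (by omega) hΓ
    have hs : ∀ s ∈ S, mat s.1.2 * T' - T' * mat s.1.1 = 0 := by
      intro s hs
      have h1 : Tendsto (fun n => ‖RT (T n) (mat (ρ n s))‖) 𝒰 (𝓝 0) := by
        refine squeeze_zero (fun n => norm_nonneg _) (fun n => ?_) he0
        exact Finset.single_le_sum (f := fun s => ‖RT (T n) (mat (ρ n s))‖)
          (fun _ _ => norm_nonneg _) ((hSmem s).mpr hs)
      have h2 := (continuous_norm.tendsto _).comp (hRTlim s)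
      exact norm_eq_zero.mp (tendsto_nhds_unique h2 h1)
    intro γ
    have hγ : γ ∈ Submonoid.closure S := by rw [hScl]; trivial
    induction hγ using Submonoid.closure_induction with
    | mem s hs' => exact sub_eq_zero.mp (hs s hs')
    | one => 
      have h1 : mat ((1 : Γ) : SOone p × SOone q).1 = 1 := mat_one
      have h2 : mat ((1 : Γ) : SOone p × SOone q).2 = 1 := mat_one
      rw [h1, h2, Matrix.one_mul, Matrix.mul_one]
    | mul x y hx hy ihx ihy =>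
      have h1 : mat ((x * y : Γ) : SOone p × SOone q).1 = mat x.1.1 * mat y.1.1 := rfl
      have h2 : mat ((x * y : Γ) : SOone p × SOone q).2 = mat x.1.2 * mat y.1.2 := rfl
      rw [h1, h2, Matrix.mul_assoc, ihy, ← Matrix.mul_assoc, ihx, Matrix.mul_assoc]
  rw [hT'0] at hT'
  -- normalised cocycles
  let cn : ℕ → Γ → Matrix (Fin (q + 1)) (Fin (p + 1)) ℝ := fun n γ =>
    (e n)⁻¹ • RT (T n) (mat (ρ n γ))
  have hAlim : ∀ γ : Γ, Tendsto (fun n => (mat (ρ n γ)).toBlocks₁₁ +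
      (mat (ρ n γ)).toBlocks₁₂ * T n) 𝒰 (𝓝 (mat γ.1.1)) := by
    intro γ
    have hc : Continuous fun z : Matrix (Fin (p + 1)) (Fin (q + 1)) ℝ ×
        Matrix (Fin (q + 1)) (Fin (p + 1)) ℝ => z.1 * z.2 := continuous_fst.matrix_mul continuous_snd
    have h1 := (hc.tendsto (0, 0)).comp ((c12 γ).prodMk_nhds hT')
    have h2 := (c11 γ).add h1
    simpa using h2
  have hDlim : ∀ γ : Γ, Tendsto (fun n => (mat (ρ n γ)).toBlocks₂₂ -
      T n * (mat (ρ n γ)).toBlocks₁₂) 𝒰 (𝓝 (mat γ.1.2)) := by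
    intro γ
    have hc : Continuous fun z : Matrix (Fin (q + 1)) (Fin (p + 1)) ℝ ×
        Matrix (Fin (p + 1)) (Fin (q + 1)) ℝ => z.1 * z.2 := continuous_fst.matrix_mul continuous_snd
    have h1 := (hc.tendsto (0, 0)).comp (hT'.prodMk_nhds (c12 γ))
    have h2 := (c22 γ).sub h1
    simpa using h2
  have hcmul : ∀ n (x y : Γ), cn n (x * y) =
      cn n x * ((mat (ρ n y)).toBlocks₁₁ + (mat (ρ n y)).toBlocks₁₂ * T n) +
      ((mat (ρ n x)).toBlocks₂₂ - T n * (mat (ρ n x)).toBlocks₁₂) * cn n y := by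
    intro n x y
    change (e n)⁻¹ • RT (T n) (mat (ρ n (x * y))) = ((e n)⁻¹ • RT (T n) (mat (ρ n x))) * _ +
      _ * ((e n)⁻¹ • RT (T n) (mat (ρ n y)))
    rw [map_mul, mat_mul, RT_mul, smul_add, Matrix.smul_mul, Matrix.mul_smul]
  have hbound : ∀ γ : Γ, ∃ C : ℝ, ∀ᶠ n in (𝒰 : Filter ℕ), ‖cn n γ‖ ≤ C := by
    intro γ
    have hγ : γ ∈ Submonoid.closure S := by rw [hScl]; trivial
    induction hγ using Submonoid.closure_induction with
    | mem s hs =>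
      refine ⟨1, Eventually.of_forall fun n => ?_⟩
      change ‖(e n)⁻¹ • RT (T n) (mat (ρ n s))‖ ≤ 1
      rw [norm_smul, norm_inv, Real.norm_of_nonneg (hepos n).le]
      have : ‖RT (T n) (mat (ρ n s))‖ ≤ e n :=
        Finset.single_le_sum (f := fun s => ‖RT (T n) (mat (ρ n s))‖)
          (fun _ _ => norm_nonneg _) ((hSmem s).mpr hs)
      rw [inv_mul_le_iff₀ (hepos n)]
      simpa using this
    | one =>
      refine ⟨0, Eventually.of_forall fun n => ?_⟩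
      change ‖(e n)⁻¹ • RT (T n) (mat (ρ n 1))‖ ≤ 0
      rw [map_one, mat_one, RT_one]; simp
    | mul x y hx hy ihx ihy =>
      obtain ⟨Cx, hCx⟩ := ihx
      obtain ⟨Cy, hCy⟩ := ihy
      have hA := (continuous_norm.tendsto _).comp (hAlim y)
      have hD := (continuous_norm.tendsto _).comp (hDlim x)
      have hA' := hA.eventually (eventually_le_nhds (lt_add_one _))
      have hD' := hD.eventually (eventually_le_nhds (lt_add_one _))
      refine ⟨Cx * (‖mat y.1.1‖ + 1) + (‖mat x.1.2‖ + 1) * Cy, ?_⟩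
      filter_upwards [hCx, hCy, hA', hD'] with n h1 h2 h3 h4
      rw [hcmul]
      have h1' := (norm_nonneg _).trans h1
      have h2' := (norm_nonneg _).trans h2
      refine (norm_add_le _ _).trans (add_le_add ?_ ?_)
      · exact (Matrix.linfty_opNorm_mul _ _).trans (mul_le_mul h1 h3 (norm_nonneg _) h1')
      · exact (Matrix.linfty_opNorm_mul _ _).trans (mul_le_mul h4 h2 (norm_nonneg _) (by positivity))
  have hclim : ∀ γ : Γ, ∃ y, Tendsto (fun n => cn n γ) 𝒰 (𝓝 y) := fun γ => by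
    obtain ⟨C, hC⟩ := hbound γ
    exact ultra_lim 𝒰 _ C hC
  choose c hc using hclim
  have hcoc : ∀ γ γ' : Γ, c (γ * γ') = c γ * mat γ'.1.1 + mat γ.1.2 * c γ' := by
    intro x y
    have hc1 : Continuous fun z : Matrix (Fin (q + 1)) (Fin (p + 1)) ℝ ×
        Matrix (Fin (p + 1)) (Fin (p + 1)) ℝ => z.1 * z.2 := continuous_fst.matrix_mul continuous_snd
    have hc2 : Continuous fun z : Matrix (Fin (q + 1)) (Fin (q + 1)) ℝ ×
        Matrix (Fin (q + 1)) (Fin (p + 1)) ℝ => z.1 * z.2 := continuous_fst.matrix_mul continuous_snd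
    have h1 := (hc1.tendsto (c x, mat y.1.1)).comp ((hc x).prodMk_nhds (hAlim y))
    have h2 := (hc2.tendsto (mat x.1.2, c y)).comp ((hDlim x).prodMk_nhds (hc y))
    have h3 := h1.add h2
    have h4 : Tendsto (fun n => cn n (x * y)) 𝒰 (𝓝 (c x * mat y.1.1 + mat x.1.2 * c y)) := by
      refine h3.congr fun n => ?_
      rw [hcmul]; rfl
    exact tendsto_nhds_unique (hc _) h4
  obtain ⟨X, hX⟩ := cocycle_trivial hp (by omega) hΓ c hcoc
  -- improved approximate graphs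
  have himp : Tendsto (fun n => ∑ s ∈ Sf, ‖cn n s + ((mat (ρ n s)).toBlocks₂₂ * X -
      X * (mat (ρ n s)).toBlocks₁₁ - T n * (mat (ρ n s)).toBlocks₁₂ * X -
      X * (mat (ρ n s)).toBlocks₁₂ * T n - e n • (X * (mat (ρ n s)).toBlocks₁₂ * X))‖) 𝒰
      (𝓝 (∑ s ∈ Sf, (0 : ℝ))) := by
    refine tendsto_finsetSum _ fun s _ => ?_
    have hcont : Continuous fun z : (Matrix (Fin (q + 1)) (Fin (p + 1)) ℝ ×
        Matrix (Fin (p + 1) ⊕ Fin (q + 1)) (Fin (p + 1) ⊕ Fin (q + 1)) ℝ) ×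
        (Matrix (Fin (q + 1)) (Fin (p + 1)) ℝ × ℝ) =>
        ‖z.1.1 + (z.1.2.toBlocks₂₂ * X - X * z.1.2.toBlocks₁₁ - z.2.1 * z.1.2.toBlocks₁₂ * X -
          X * z.1.2.toBlocks₁₂ * z.2.1 - z.2.2 • (X * z.1.2.toBlocks₁₂ * X))‖ := by
      have g1 := continuous_fst (X := Matrix (Fin (q + 1)) (Fin (p + 1)) ℝ ×
        Matrix (Fin (p + 1) ⊕ Fin (q + 1)) (Fin (p + 1) ⊕ Fin (q + 1)) ℝ)
        (Y := Matrix (Fin (q + 1)) (Fin (p + 1)) ℝ × ℝ)
      have g2 := continuous_snd (X := Matrix (Fin (q + 1)) (Fin (p + 1)) ℝ ×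
        Matrix (Fin (p + 1) ⊕ Fin (q + 1)) (Fin (p + 1) ⊕ Fin (q + 1)) ℝ)
        (Y := Matrix (Fin (q + 1)) (Fin (p + 1)) ℝ × ℝ)
      have hX' : Continuous fun _ : (Matrix (Fin (q + 1)) (Fin (p + 1)) ℝ ×
        Matrix (Fin (p + 1) ⊕ Fin (q + 1)) (Fin (p + 1) ⊕ Fin (q + 1)) ℝ) ×
        (Matrix (Fin (q + 1)) (Fin (p + 1)) ℝ × ℝ) => X := continuous_const
      have m11 := k11.comp (continuous_snd.comp g1)
      have m12 := k12.comp (continuous_snd.comp g1)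
      have m22 := k22.comp (continuous_snd.comp g1)
      have t := continuous_fst.comp g2
      have r := continuous_snd.comp g2
      exact continuous_norm.comp ((continuous_fst.comp g1).add
        (((((m22.matrix_mul hX').sub (hX'.matrix_mul m11)).sub
          ((t.matrix_mul m12).matrix_mul hX')).sub ((hX'.matrix_mul m12).matrix_mul t)).sub
          (r.smul ((hX'.matrix_mul m12).matrix_mul hX'))))
    have h1 := (hcont.tendsto ((c s, mat (iota p q s)), (0, 0))).comp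
      (((hc s).prodMk_nhds (hconv s)).prodMk_nhds (hT'.prodMk_nhds he0))
    have h2 : ‖c s + ((mat (iota p q s)).toBlocks₂₂ * X - X * (mat (iota p q s)).toBlocks₁₁ -
        (0 : Matrix (Fin (q + 1)) (Fin (p + 1)) ℝ) * (mat (iota p q s)).toBlocks₁₂ * X -
        X * (mat (iota p q s)).toBlocks₁₂ * (0 : Matrix (Fin (q + 1)) (Fin (p + 1)) ℝ) -
        (0 : ℝ) • (X * (mat (iota p q s)).toBlocks₁₂ * X))‖ = 0 := by
      rw [b11, b12, b22, hX s]
      simp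
    simp only [h2] at h1
    exact h1
  rw [Finset.sum_const_zero] at himp
  have hE2 : ∀ n, En n (T n + e n • X) = e n * ∑ s ∈ Sf, ‖cn n s + ((mat (ρ n s)).toBlocks₂₂ * X -
      X * (mat (ρ n s)).toBlocks₁₁ - T n * (mat (ρ n s)).toBlocks₁₂ * X -
      X * (mat (ρ n s)).toBlocks₁₂ * T n - e n • (X * (mat (ρ n s)).toBlocks₁₂ * X))‖ := by
    intro n
    change ∑ s ∈ Sf, ‖RT (T n + e n • X) (mat (ρ n s))‖ = _
    rw [Finset.mul_sum]
    refine Finset.sum_congr rfl fun s _ => ?_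
    have h1 : RT (T n) (mat (ρ n s)) = e n • cn n s := by
      change _ = e n • ((e n)⁻¹ • RT (T n) (mat (ρ n s)))
      rw [smul_smul, mul_inv_cancel₀ (hepos n).ne', one_smul]
    rw [RT_add, h1, ← smul_add, norm_smul, Real.norm_of_nonneg (hepos n).le]
  have hTX : Tendsto (fun n => ‖T n + e n • X‖) 𝒰 (𝓝 0) := by
    have h1 : Tendsto (fun n => T n + e n • X) 𝒰 (𝓝 0) := by
      have hcont : Continuous fun z : Matrix (Fin (q + 1)) (Fin (p + 1)) ℝ × ℝ =>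
          z.1 + z.2 • X := continuous_fst.add (continuous_snd.smul continuous_const)
      have h0 := (hcont.tendsto (0, 0)).comp (hT'.prodMk_nhds he0)
      have h5 : (0 : Matrix (Fin (q + 1)) (Fin (p + 1)) ℝ) + (0 : ℝ) • X = 0 := by simp
      simp only [h5] at h0
      exact h0
    have h2 := (continuous_norm.tendsto (0 : Matrix (Fin (q + 1)) (Fin (p + 1)) ℝ)).comp h1
    rwa [norm_zero] at h2
  have hev1 : ∀ᶠ n in (𝒰 : Filter ℕ), ‖T n + e n • X‖ ≤ δ :=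
    hTX.eventually (eventually_le_nhds hδ)
  have hev2 := himp.eventually (eventually_lt_nhds (zero_lt_one (α := ℝ)))
  obtain ⟨n, h1, h2⟩ := (hev1.and hev2).exists
  have h3 : e n ≤ En n (T n + e n • X) := hTmin n (by simpa using h1)
  rw [hE2 n] at h3
  have h4 := mul_lt_mul_of_pos_left h2 (hepos n)
  rw [mul_one] at h4
  linarith

end Pool.Agent.Lib.MPa37b3a
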