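import Pool.Agent.Lib.MPa37b3a.Near

/-!
Symmetric matrices close to the Gram matrix of signature `(1,p)` are congruent to it.
-/

open Matrix Topology Filter

namespace Pool.Agent.Lib.MPa37b3a

open MatrixOrder in
theorem exists_sqrt {n : ℕ} (M : Matrix (Fin n) (Fin n) ℝ) (hM : M.PosDef) :
    ∃ B : Matrix (Fin n) (Fin n) ℝ, Bᵀ * B = M ∧ B.det ≠ 0 := by
  have h0 : 0 ≤ M := hM.posSemidef.nonneg
  have h1 : CFC.sqrt M * CFC.sqrt M = M := CFC.sqrt_mul_sqrt_self M h0
  have h2 : (CFC.sqrt M).PosSemidef := (CFC.sqrt_nonneg M).posSemidef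
  have h3 : (CFC.sqrt M)ᵀ = CFC.sqrt M := by
    have := h2.isHermitian
    rwa [Matrix.IsHermitian, Matrix.conjTranspose_eq_transpose_of_trivial] at this
  refine ⟨CFC.sqrt M, by rw [h3, h1], ?_⟩
  intro h
  have h4 := congrArg Matrix.det h1
  rw [Matrix.det_mul, h] at h4
  have := hM.det_pos
  linarith

variable {p : ℕ}

theorem congr_entry (Y : Matrix (Fin (p + 1)) (Fin (p + 1)) ℝ) (i j : Fin (p + 1)) :
    (Yᵀ * gram p * Y) i j = Y 0 i * Y 0 j - ∑ k : Fin p, Y k.succ i * Y k.succ j := by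
  rw [Matrix.mul_apply, Fin.sum_univ_succ]
  simp only [gram, Matrix.mul_diagonal, Matrix.transpose_apply]
  simp only [if_true, Fin.succ_ne_zero, if_false]
  rw [sub_eq_add_neg, ← Finset.sum_neg_distrib]
  congr 1
  · ring
  · exact Finset.sum_congr rfl fun j _ => by ring

theorem posDef_near_one (M : Matrix (Fin p) (Fin p) ℝ) (hM : Mᵀ = M)
    (b : Fin p → ℝ) (α : ℝ) (hα : 0 < α) (η : ℝ) (hη0 : 0 < η) (hη : p * η < 1)
    (hE : ∀ i j, |M i j - α⁻¹ * (b i * b j) - (1 : Matrix (Fin p) (Fin p) ℝ) i j| ≤ η) :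
    M.PosDef := by
  apply Matrix.PosDef.of_dotProduct_mulVec_pos
  · rw [Matrix.IsHermitian, Matrix.conjTranspose_eq_transpose_of_trivial, hM]
  · intro v hv
    set E : Matrix (Fin p) (Fin p) ℝ := fun i j =>
      M i j - α⁻¹ * (b i * b j) - (1 : Matrix (Fin p) (Fin p) ℝ) i j with hEdef
    have hdec : M = 1 + E + α⁻¹ • Matrix.vecMulVec b b := by
      ext i j
      simp only [hEdef, Matrix.add_apply, Matrix.smul_apply, Matrix.vecMulVec_apply, smul_eq_mul]
      ring
    have hstar : star v = v := by ext i; simp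
    rw [hstar, hdec, Matrix.add_mulVec, Matrix.add_mulVec, dotProduct_add, dotProduct_add,
      Matrix.one_mulVec, Matrix.smul_mulVec, Matrix.vecMulVec_mulVec]
    have h1 : |v ⬝ᵥ (E *ᵥ v)| ≤ η * (∑ i, |v i|) ^ 2 := by
      simp only [dotProduct, Matrix.mulVec]
      calc |∑ i, v i * ∑ j, E i j * v j| ≤ ∑ i, |v i * ∑ j, E i j * v j| :=
            Finset.abs_sum_le_sum_abs _ _
        _ ≤ ∑ i, |v i| * ∑ j, η * |v j| := by
            refine Finset.sum_le_sum fun i _ => ?_
            rw [abs_mul]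
            refine mul_le_mul_of_nonneg_left ?_ (abs_nonneg _)
            refine (Finset.abs_sum_le_sum_abs _ _).trans (Finset.sum_le_sum fun j _ => ?_)
            rw [abs_mul]
            exact mul_le_mul_of_nonneg_right (hE i j) (abs_nonneg _)
        _ = η * (∑ i, |v i|) ^ 2 := by
            rw [← Finset.sum_mul, ← Finset.mul_sum]; ring
    have h2 : (∑ i, |v i|) ^ 2 ≤ p * ∑ i, (v i) ^ 2 := by
      have := sq_sum_le_card_mul_sum_sq (s := (Finset.univ : Finset (Fin p))) (f := fun i => |v i|)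
      simpa using this
    have h3 : 0 < ∑ i, (v i) ^ 2 := by
      obtain ⟨i, hi⟩ := Function.ne_iff.mp hv
      have h4 : 0 < (v i) ^ 2 := by
        have : v i ≠ 0 := hi
        positivity
      exact lt_of_lt_of_le h4 (Finset.single_le_sum (f := fun i => (v i) ^ 2)
        (fun _ _ => sq_nonneg _) (Finset.mem_univ i))
    have h5 : v ⬝ᵥ v = ∑ i, (v i) ^ 2 := by
      simp only [dotProduct]; exact Finset.sum_congr rfl fun i _ => by ring
    have h6 : 0 ≤ v ⬝ᵥ (α⁻¹ • MulOpposite.op (b ⬝ᵥ v) • b) := by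
      rw [dotProduct_smul]
      have : v ⬝ᵥ (MulOpposite.op (b ⬝ᵥ v) • b) = (b ⬝ᵥ v) * (b ⬝ᵥ v) := by
        rw [dotProduct_smul, dotProduct_comm v b]; simp
      rw [this, smul_eq_mul]
      have := mul_self_nonneg (b ⬝ᵥ v)
      positivity
    rw [h5]
    have h7 := (abs_le.mp h1).1
    have h8 : η * (∑ i, |v i|) ^ 2 ≤ (p * η) * ∑ i, (v i) ^ 2 := by
      calc η * (∑ i, |v i|) ^ 2 ≤ η * (p * ∑ i, (v i) ^ 2) := by gcongr
        _ = _ := by ring
    have h9 : (p * η) * ∑ i, (v i) ^ 2 < 1 * ∑ i, (v i) ^ 2 := mul_lt_mul_of_pos_right hη h3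
    linarith

theorem sylvester (p : ℕ) : ∃ η : ℝ, 0 < η ∧ ∀ G : Matrix (Fin (p + 1)) (Fin (p + 1)) ℝ,
    Gᵀ = G → (∀ i j, |G i j - gram p i j| ≤ η) →
      ∃ Y : Matrix (Fin (p + 1)) (Fin (p + 1)) ℝ, Yᵀ * gram p * Y = G ∧ Y.det ≠ 0 := by
  refine ⟨1 / (2 * (p + 1)), by positivity, fun G hG hclose => ?_⟩
  set η : ℝ := 1 / (2 * (p + 1)) with hη
  have hp0 : (0 : ℝ) ≤ p := Nat.cast_nonneg _
  have hη0 : 0 < η := by positivity
  have hη2 : η ≤ 1 / 2 := by
    rw [hη]
    apply one_div_le_one_div_of_le (by norm_num)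
    linarith
  have hpη : p * η < 1 := by
    rw [hη, mul_one_div, div_lt_one (by positivity)]
    linarith
  set α : ℝ := G 0 0 with hα
  have hα0 : 0 < α := by
    have h := hclose 0 0
    rw [gram_zero, abs_le] at h
    linarith [h.1]
  set s : ℝ := Real.sqrt α with hs
  have hss : s * s = α := Real.mul_self_sqrt hα0.le
  have hs0 : 0 < s := Real.sqrt_pos.mpr hα0
  set M : Matrix (Fin p) (Fin p) ℝ := fun i j =>
    -G i.succ j.succ + α⁻¹ * (G 0 i.succ * G 0 j.succ) with hM
  have hsym : ∀ i j, G i j = G j i := fun i j => congrFun (congrFun hG j) i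
  have hMt : Mᵀ = M := by
    ext i j
    simp only [hM, Matrix.transpose_apply]
    rw [hsym j.succ i.succ]; ring
  have hgram : ∀ i j : Fin p, gram p i.succ j.succ = -(1 : Matrix (Fin p) (Fin p) ℝ) i j := by
    intro i j
    simp only [gram, Matrix.diagonal_apply, Matrix.one_apply, Fin.succ_ne_zero, if_false,
      Fin.succ_inj]
    split_ifs <;> simp
  have hMpos : M.PosDef := by
    apply posDef_near_one M hMt (fun i => G 0 i.succ) α hα0 η hη0 hpη
    intro i j
    have h := hclose i.succ j.succ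
    rw [hgram] at h
    have e : M i j - α⁻¹ * (G 0 i.succ * G 0 j.succ) - (1 : Matrix (Fin p) (Fin p) ℝ) i j
        = -(G i.succ j.succ - -(1 : Matrix (Fin p) (Fin p) ℝ) i j) := by
      simp only [hM]; ring
    rw [e, abs_neg]; exact h
  obtain ⟨B, hB, hBdet⟩ := exists_sqrt M hMpos
  have hBe : ∀ i j, ∑ k, B k i * B k j = M i j := by
    intro i j
    rw [← hB, Matrix.mul_apply]; rfl
  let Y : Matrix (Fin (p + 1)) (Fin (p + 1)) ℝ :=
    Matrix.of (Fin.cons (Fin.cons s fun j => s⁻¹ * G 0 j.succ)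
      fun i => Fin.cons 0 fun j => B i j)
  have y00 : Y 0 0 = s := rfl
  have y0s : ∀ j : Fin p, Y 0 j.succ = s⁻¹ * G 0 j.succ := fun j => rfl
  have ys0 : ∀ i : Fin p, Y i.succ 0 = 0 := fun j => rfl
  have yss : ∀ i j : Fin p, Y i.succ j.succ = B i j := fun i j => rfl
  have hYJ : Yᵀ * gram p * Y = G := by
    ext i j
    rw [congr_entry]
    refine Fin.cases ?_ (fun i => ?_) i
    · refine Fin.cases ?_ (fun j => ?_) j
      · rw [y00, hss]; simp [ys0, hα]
      · rw [y00, y0s]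
        simp only [ys0, zero_mul, Finset.sum_const_zero, sub_zero]
        field_simp
    · refine Fin.cases ?_ (fun j => ?_) j
      · rw [y00, y0s]
        simp only [ys0, mul_zero, Finset.sum_const_zero, sub_zero]
        rw [hsym i.succ 0]
        field_simp
      · simp only [y0s, yss]
        rw [hBe]
        simp only [hM]
        have : s⁻¹ * G 0 i.succ * (s⁻¹ * G 0 j.succ) = α⁻¹ * (G 0 i.succ * G 0 j.succ) := by
          rw [← hss]; field_simp
        rw [this]; ring
  refine ⟨Y, hYJ, ?_⟩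
  rw [Matrix.det_succ_column_zero, Fin.sum_univ_succ]
  simp only [ys0, mul_zero, zero_mul, Finset.sum_const_zero, add_zero]
  have hsub : Y.submatrix (Fin.succAbove 0) Fin.succ = B := by
    ext i j
    simp [Matrix.submatrix_apply, yss]
  rw [hsub, y00]
  simp only [Fin.val_zero, pow_zero, one_mul]
  exact mul_ne_zero hs0.ne' hBdet

end Pool.Agent.Lib.MPa37b3a
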