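import Pool.Agent.Lib.MPa37b3a.Boost2

/-!
Vanishing of the first cohomology of a uniform lattice of `SO(1,p) × SO(1,q)`, `p ≥ 2`, `q ≥ 1`,
with coefficients in `Hom(ℝ^{1+p}, ℝ^{1+q})`.
-/

open Matrix Topology Filter

namespace Pool.Agent.Lib.MPa37b3a

attribute [local instance] Matrix.linftyOpNormedAddCommGroup Matrix.linftyOpNormedSpace

variable {p q : ℕ}

theorem cocycle_trivial (hp : 2 ≤ p) (hq : 1 ≤ q) {Γ : Subgroup (SOone p × SOone q)}
    (hΓ : IsUniformLattice Γ) (c : Γ → Matrix (Fin (q + 1)) (Fin (p + 1)) ℝ)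
    (hc : ∀ γ γ' : Γ, c (γ * γ') = c γ * mat γ'.1.1 + mat γ.1.2 * c γ') :
    ∃ T : Matrix (Fin (q + 1)) (Fin (p + 1)) ℝ,
      ∀ γ : Γ, c γ = T * mat γ.1.1 - mat γ.1.2 * T := by
  -- fundamental set and choices
  obtain ⟨R0, hR0⟩ := exists_bdd_fundamental hΓ
  set R : ℝ := max R0 1 with hRdef
  have hR1 : 1 ≤ R := le_max_right _ _
  have hfund : ∀ h : SOone p × SOone q, ∃ γ : Γ, ∃ k ∈ bdd p q R, h = γ.1 * k := by
    intro h
    obtain ⟨γ, hγ, k, hk, e⟩ := hR0 h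
    exact ⟨⟨γ, hγ⟩, k, bdd_mono (le_max_left _ _) hk, e⟩
  choose gam kk hkk hdec using hfund
  have hfin : ∀ R' : ℝ, ∃ C : ℝ, 0 ≤ C ∧ ∀ γ : Γ, γ.1 ∈ bdd p q R' → ‖c γ‖ ≤ C := by
    intro R'
    have hf := finite_bdd hΓ R'
    have hf' : {γ : Γ | γ.1 ∈ bdd p q R'}.Finite := by
      have : {γ : Γ | γ.1 ∈ bdd p q R'} =
          (fun γ : Γ => γ.1) ⁻¹' {γ | γ ∈ Γ ∧ γ ∈ bdd p q R'} := by
        ext γ; simp
      rw [this]
      exact hf.preimage (Subtype.val_injective.injOn)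
    obtain ⟨C, hC⟩ := (hf'.image (fun γ => ‖c γ‖)).bddAbove
    refine ⟨max C 0, le_max_right _ _, fun γ hγ => ?_⟩
    exact (hC ⟨γ, hγ, rfl⟩).trans (le_max_left _ _)
  have hc1 : c 1 = 0 := by
    have h := hc 1 1
    rw [mul_one] at h
    have e1 : mat ((1 : Γ) : SOone p × SOone q).1 = 1 := mat_one
    have e2 : mat ((1 : Γ) : SOone p × SOone q).2 = 1 := mat_one
    rw [e1, e2, Matrix.mul_one, Matrix.one_mul] at h
    have h' : c 1 + 0 = c 1 + c 1 := by rw [add_zero]; exact h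
    exact (add_left_cancel h').symm
  set N : ℝ := ((p + q + 1 : ℕ) : ℝ) with hN
  have hN1 : 1 ≤ N := by
    rw [hN]; push_cast
    have h1 : (0 : ℝ) ≤ p := Nat.cast_nonneg _
    have h2 : (0 : ℝ) ≤ q := Nat.cast_nonneg _
    linarith
  let F : SOone p × SOone q → Matrix (Fin (q + 1)) (Fin (p + 1)) ℝ :=
    fun h => c (gam h) * mat (kk h).1
  -- consistency
  have hcons : ∀ R' : ℝ, 0 ≤ R' → ∃ C : ℝ, 0 ≤ C ∧ ∀ (γ0 : Γ) (k0 : SOone p × SOone q),
      k0 ∈ bdd p q R' → ∃ E : Matrix (Fin (q + 1)) (Fin (p + 1)) ℝ, ‖E‖ ≤ C ∧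
        F (γ0.1 * k0) = c γ0 * mat k0.1 + mat (γ0.1 * k0).2 * E := by
    intro R' hR'
    obtain ⟨C, hC0, hC⟩ := hfin (R' * (N * R))
    refine ⟨(N * R') * C * R, by positivity, fun γ0 k0 hk0 => ?_⟩
    set h := γ0.1 * k0 with hh
    set δ : Γ := γ0⁻¹ * gam h with hδ
    have hgam : gam h = γ0 * δ := by rw [hδ]; simp
    have hδk : δ.1 * kk h = k0 := by
      have e := hdec h
      have : δ.1 = γ0.1⁻¹ * (gam h).1 := rfl
      rw [this, mul_assoc, ← e, hh]; simp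
    have hδbdd : δ.1 ∈ bdd p q (R' * (N * R)) := by
      have : δ.1 = k0 * (kk h)⁻¹ := by rw [← hδk]; simp
      rw [this]
      exact bdd_mul hR' hk0 (bdd_inv (hkk h))
    refine ⟨mat (k0⁻¹).2 * c δ * mat (kk h).1, ?_, ?_⟩
    · calc ‖mat (k0⁻¹).2 * c δ * mat (kk h).1‖
          ≤ ‖mat (k0⁻¹).2 * c δ‖ * ‖mat (kk h).1‖ := Matrix.linfty_opNorm_mul _ _
        _ ≤ ‖mat (k0⁻¹).2‖ * ‖c δ‖ * ‖mat (kk h).1‖ := by
            gcongr; exact Matrix.linfty_opNorm_mul _ _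
        _ ≤ (N * R') * C * R := by
            have h1 := (bdd_inv hk0).2
            have h2 := hC δ hδbdd
            have h3 := (hkk h).1
            gcongr
    · have e1 : F h = c (gam h) * mat (kk h).1 := rfl
      have e2 : mat (kk h).1 = mat (kk h).1 := rfl
      have e3 : mat δ.1.1 * mat (kk h).1 = mat k0.1 := by
        rw [← mat_mul, ← hδk]; rfl
      have e4 : mat h.2 * mat (k0⁻¹).2 = mat γ0.1.2 := by
        rw [← mat_mul]
        congr 1
        rw [hh]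
        change γ0.1.2 * k0.2 * k0.2⁻¹ = γ0.1.2
        simp
      rw [e1, hgam, hc, Matrix.add_mul, Matrix.mul_assoc (c γ0), e3]
      congr 1
      rw [Matrix.mul_assoc, Matrix.mul_assoc, ← Matrix.mul_assoc (mat h.2), e4]
  -- equivariance up to bounded error
  obtain ⟨C1, hC10, hC1⟩ := hcons R (by linarith)
  have hequi : ∀ (γ : Γ) (h : SOone p × SOone q),
      ∃ E : Matrix (Fin (q + 1)) (Fin (p + 1)) ℝ, ‖E‖ ≤ C1 ∧
        F (γ.1 * h) = mat γ.1.2 * F h + c γ * mat h.1 + mat (γ.1 * h).2 * E := by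
    intro γ h
    obtain ⟨E, hE, e⟩ := hC1 (γ * gam h) (kk h) (hkk h)
    refine ⟨E, hE, ?_⟩
    have e1 : (γ * gam h : Γ).1 * kk h = γ.1 * h := by
      conv_rhs => rw [hdec h]
      rw [← mul_assoc]; rfl
    rw [e1] at e
    rw [e, hc, Matrix.add_mul, Matrix.mul_assoc (c γ)]
    have e2 : mat (gam h).1.1 * mat (kk h).1 = mat h.1 := by
      rw [← mat_mul]
      conv_rhs => rw [hdec h]
      rfl
    rw [e2, Matrix.mul_assoc (mat γ.1.2)]
    rw [add_comm (c γ * mat h.1)]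
  have hright : ∀ R' : ℝ, 0 ≤ R' → ∃ C : ℝ, 0 ≤ C ∧ ∀ (h g : SOone p × SOone q),
      g ∈ bdd p q R' → ∃ E : Matrix (Fin (q + 1)) (Fin (p + 1)) ℝ, ‖E‖ ≤ C ∧
        F (h * g) = F h * mat g.1 + mat h.2 * E := by
    intro R' hR'
    obtain ⟨C, hC0, hC⟩ := hcons (R * R') (by positivity)
    refine ⟨R' * C, by positivity, fun h g hg => ?_⟩
    obtain ⟨E, hE, e⟩ := hC (gam h) (kk h * g) (bdd_mul (by linarith) (hkk h) hg)
    have e1 : (gam h).1 * (kk h * g) = h * g := by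
      conv_rhs => rw [hdec h]
      rw [mul_assoc]
    rw [e1] at e
    refine ⟨mat g.2 * E, ?_, ?_⟩
    · calc ‖mat g.2 * E‖ ≤ ‖mat g.2‖ * ‖E‖ := Matrix.linfty_opNorm_mul _ _
        _ ≤ R' * C := by
          have := hg.2
          gcongr
    · rw [e]
      have e2 : mat (kk h * g).1 = mat (kk h).1 * mat g.1 := rfl
      have e3 : mat (h * g).2 = mat h.2 * mat g.2 := rfl
      rw [e2, e3, Matrix.mul_assoc (mat h.2), ← Matrix.mul_assoc (c (gam h))]
  -- the boost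
  set j0 : Fin p := ⟨0, by omega⟩ with hj0
  obtain ⟨b, hb0, hbj, -⟩ := exists_boost j0
  set ep : Fin (p + 1) → ℝ := e0 p + es j0 with hep
  have hbep : mat b *ᵥ ep = (2 : ℝ) • ep := boost_plus hb0 hbj
  set a : SOone p × SOone q := (b, 1) with ha
  have habdd : a ∈ bdd p q (max ‖mat b‖ ‖mat (1 : SOone q)‖) := ⟨le_max_left _ _, le_max_right _ _⟩
  obtain ⟨C2, hC20, hC2⟩ := hright _ ((norm_nonneg _).trans habdd.1)
  have hapow2 : ∀ (h : SOone p × SOone q) (n : ℕ), (h * a ^ n).2 = h.2 := by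
    intro h n
    simp [ha]
  have hapow1 : ∀ n : ℕ, mat (a ^ n).1 *ᵥ ep = (2 : ℝ) ^ n • ep := by
    intro n
    induction n with
    | zero => simp [mat_one]
    | succ n ih =>
      have : mat (a ^ (n + 1)).1 = mat (a ^ n).1 * mat b := by rw [pow_succ]; rfl
      rw [this, ← Matrix.mulVec_mulVec, hbep, Matrix.mulVec_smul, ih, smul_smul, pow_succ, mul_comm]
  let w : SOone p × SOone q → ℕ → (Fin (q + 1) → ℝ) :=
    fun h n => ((1 / 2 : ℝ) ^ n) • (F (h * a ^ n) *ᵥ ep)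
  have hwdist : ∀ h n, dist (w h n) (w h (n + 1)) ≤ (‖mat h.2‖ * C2 * ‖ep‖) * (1 / 2 : ℝ) ^ n := by
    intro h n
    obtain ⟨E, hE, e⟩ := hC2 (h * a ^ n) a habdd
    have e1 : h * a ^ n * a = h * a ^ (n + 1) := by rw [pow_succ, mul_assoc]
    have e2 : w h (n + 1) = w h n + ((1 / 2 : ℝ) ^ (n + 1)) • ((mat h.2 * E) *ᵥ ep) := by
      change ((1 / 2 : ℝ) ^ (n + 1)) • (F (h * a ^ (n + 1)) *ᵥ ep) =
        ((1 / 2 : ℝ) ^ n) • (F (h * a ^ n) *ᵥ ep) + _
      rw [← e1, e, Matrix.add_mulVec, smul_add, hapow2]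
      congr 1
      have : mat a.1 = mat b := rfl
      rw [this, ← Matrix.mulVec_mulVec, hbep, Matrix.mulVec_smul, smul_smul]
      congr 1
      rw [pow_succ]; ring
    rw [e2, dist_eq_norm, sub_add_cancel_left, norm_neg, norm_smul, norm_pow]
    have e3 : ‖(mat h.2 * E) *ᵥ ep‖ ≤ ‖mat h.2‖ * C2 * ‖ep‖ := by
      calc ‖(mat h.2 * E) *ᵥ ep‖ ≤ ‖mat h.2 * E‖ * ‖ep‖ := Matrix.linfty_opNorm_mulVec _ _
        _ ≤ ‖mat h.2‖ * ‖E‖ * ‖ep‖ := by gcongr; exact Matrix.linfty_opNorm_mul _ _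
        _ ≤ ‖mat h.2‖ * C2 * ‖ep‖ := by gcongr
    have e4 : ‖(1 / 2 : ℝ)‖ ^ (n + 1) ≤ (1 / 2 : ℝ) ^ n := by
      rw [Real.norm_of_nonneg (by norm_num), pow_succ]
      have : (0 : ℝ) ≤ (1 / 2 : ℝ) ^ n := by positivity
      linarith
    calc ‖(1 / 2 : ℝ)‖ ^ (n + 1) * ‖(mat h.2 * E) *ᵥ ep‖
        ≤ (1 / 2 : ℝ) ^ n * (‖mat h.2‖ * C2 * ‖ep‖) := by gcongr
      _ = _ := by ring
  have hlim : ∀ h, ∃ x, Tendsto (w h) atTop (𝓝 x) := fun h =>
    cauchySeq_tendsto_of_complete (cauchySeq_of_le_geometric (1 / 2) _ (by norm_num) (hwdist h))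
  choose u hu using hlim
  have hu0 : ∀ h, ‖u h‖ ≤ ‖F h‖ * ‖ep‖ + 2 * (‖mat h.2‖ * C2 * ‖ep‖) := by
    intro h
    have h1 := dist_le_of_le_geometric_of_tendsto₀ (1 / 2) _ (by norm_num) (hwdist h) (hu h)
    have h2 : w h 0 = F h *ᵥ ep := by
      change ((1 / 2 : ℝ) ^ 0) • (F (h * a ^ 0) *ᵥ ep) = _
      simp
    rw [h2, dist_eq_norm] at h1
    have h3 : ‖u h‖ ≤ ‖F h *ᵥ ep‖ + ‖F h *ᵥ ep - u h‖ := by
      have := norm_sub_norm_le (u h) (F h *ᵥ ep)
      rw [norm_sub_rev] at this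
      linarith
    have h4 : ‖F h *ᵥ ep‖ ≤ ‖F h‖ * ‖ep‖ := Matrix.linfty_opNorm_mulVec _ _
    have h5 : ‖mat h.2‖ * C2 * ‖ep‖ / (1 - 1 / 2) = 2 * (‖mat h.2‖ * C2 * ‖ep‖) := by ring
    rw [h5] at h1
    linarith
  have hhalf : Tendsto (fun n : ℕ => (1 / 2 : ℝ) ^ n) atTop (𝓝 0) :=
    tendsto_pow_atTop_nhds_zero_of_lt_one (by norm_num) (by norm_num)
  have hsmall : ∀ (v : ℕ → (Fin (q + 1) → ℝ)) (M : ℝ), (∀ n, ‖v n‖ ≤ M) →
      Tendsto (fun n => ((1 / 2 : ℝ) ^ n) • v n) atTop (𝓝 0) := by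
    intro v M hv
    apply squeeze_zero_norm (a := fun n => (1 / 2 : ℝ) ^ n * M)
    · intro n
      rw [norm_smul, norm_pow, Real.norm_of_nonneg (by norm_num : (0 : ℝ) ≤ 1 / 2)]
      gcongr
      exact hv n
    · simpa using hhalf.mul_const M
  -- equivariance of u
  have hu_left : ∀ (γ : Γ) h, u (γ.1 * h) = mat γ.1.2 *ᵥ u h + (c γ * mat h.1) *ᵥ ep := by
    intro γ h
    have hE : ∀ n, ∃ E : Matrix (Fin (q + 1)) (Fin (p + 1)) ℝ, ‖E‖ ≤ C1 ∧
        F (γ.1 * (h * a ^ n)) = mat γ.1.2 * F (h * a ^ n) + c γ * mat (h * a ^ n).1 +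
          mat (γ.1 * (h * a ^ n)).2 * E := fun n => hequi γ (h * a ^ n)
    choose E hEn hEe using hE
    have h1 : ∀ n, w (γ.1 * h) n = mat γ.1.2 *ᵥ w h n + (c γ * mat h.1) *ᵥ ep +
        ((1 / 2 : ℝ) ^ n) • ((mat (γ.1 * h).2 * E n) *ᵥ ep) := by
      intro n
      change ((1 / 2 : ℝ) ^ n) • (F (γ.1 * h * a ^ n) *ᵥ ep) =
        mat γ.1.2 *ᵥ (((1 / 2 : ℝ) ^ n) • (F (h * a ^ n) *ᵥ ep)) + _ + _
      rw [mul_assoc, hEe n, Matrix.add_mulVec, Matrix.add_mulVec, smul_add, smul_add,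
        ← mul_assoc, hapow2]
      congr 1
      congr 1
      · rw [Matrix.mulVec_smul, Matrix.mulVec_mulVec]
      · have e5 : mat (h * a ^ n).1 = mat h.1 * mat (a ^ n).1 := rfl
        rw [e5, ← Matrix.mul_assoc, ← Matrix.mulVec_mulVec, hapow1, Matrix.mulVec_smul, smul_smul,
          ← mul_pow]
        norm_num
    have h2 : Tendsto (w (γ.1 * h)) atTop
        (𝓝 (mat γ.1.2 *ᵥ u h + (c γ * mat h.1) *ᵥ ep + 0)) := by
      have e6 : w (γ.1 * h) = fun n => mat γ.1.2 *ᵥ w h n + (c γ * mat h.1) *ᵥ ep +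
        ((1 / 2 : ℝ) ^ n) • ((mat (γ.1 * h).2 * E n) *ᵥ ep) := funext h1
      rw [e6]
      refine Tendsto.add (Tendsto.add ?_ tendsto_const_nhds) ?_
      · have hcont : Continuous fun v : Fin (q + 1) → ℝ => mat γ.1.2 *ᵥ v :=
          continuous_const.matrix_mulVec continuous_id
        exact (hcont.tendsto _).comp (hu h)
      · apply hsmall _ (‖mat (γ.1 * h).2‖ * C1 * ‖ep‖)
        intro n
        calc ‖(mat (γ.1 * h).2 * E n) *ᵥ ep‖ ≤ ‖mat (γ.1 * h).2 * E n‖ * ‖ep‖ :=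
              Matrix.linfty_opNorm_mulVec _ _
          _ ≤ ‖mat (γ.1 * h).2‖ * ‖E n‖ * ‖ep‖ := by gcongr; exact Matrix.linfty_opNorm_mul _ _
          _ ≤ ‖mat (γ.1 * h).2‖ * C1 * ‖ep‖ := by have := hEn n; gcongr
    rw [add_zero] at h2
    exact tendsto_nhds_unique (hu _) h2
  -- invariance under the second factor
  have hu_right : ∀ (h : SOone p × SOone q) (g : SOone q), u (h * (1, g)) = u h := by
    intro h g
    set g' : SOone p × SOone q := (1, g) with hg'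
    have hgb : g' ∈ bdd p q (max ‖mat (1 : SOone p)‖ ‖mat g‖) := ⟨le_max_left _ _, le_max_right _ _⟩
    obtain ⟨C, hC0, hC⟩ := hright _ ((norm_nonneg _).trans hgb.1)
    have hE : ∀ n, ∃ E : Matrix (Fin (q + 1)) (Fin (p + 1)) ℝ, ‖E‖ ≤ C ∧
        F (h * a ^ n * g') = F (h * a ^ n) * mat g'.1 + mat (h * a ^ n).2 * E :=
      fun n => hC (h * a ^ n) g' hgb
    choose E hEn hEe using hE
    have hcomm : ∀ n, h * g' * a ^ n = h * a ^ n * g' := by
      intro n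
      rw [mul_assoc, mul_assoc]
      congr 1
      ext1
      · simp [hg', ha]
      · simp [hg', ha]
    have h1 : ∀ n, w (h * g') n = w h n + ((1 / 2 : ℝ) ^ n) • ((mat h.2 * E n) *ᵥ ep) := by
      intro n
      change ((1 / 2 : ℝ) ^ n) • (F (h * g' * a ^ n) *ᵥ ep) =
        ((1 / 2 : ℝ) ^ n) • (F (h * a ^ n) *ᵥ ep) + _
      have e7 : mat g'.1 = 1 := mat_one
      rw [hcomm, hEe n, Matrix.add_mulVec, smul_add, hapow2, e7, Matrix.mul_one]
    have h2 : Tendsto (w (h * g')) atTop (𝓝 (u h + 0)) := by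
      have e6 : w (h * g') = fun n => w h n +
        ((1 / 2 : ℝ) ^ n) • ((mat h.2 * E n) *ᵥ ep) := funext h1
      rw [e6]
      refine Tendsto.add (hu h) ?_
      apply hsmall _ (‖mat h.2‖ * C * ‖ep‖)
      intro n
      calc ‖(mat h.2 * E n) *ᵥ ep‖ ≤ ‖mat h.2 * E n‖ * ‖ep‖ :=
            Matrix.linfty_opNorm_mulVec _ _
        _ ≤ ‖mat h.2‖ * ‖E n‖ * ‖ep‖ := by gcongr; exact Matrix.linfty_opNorm_mul _ _
        _ ≤ ‖mat h.2‖ * C * ‖ep‖ := by have := hEn n; gcongr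
    rw [add_zero] at h2
    exact tendsto_nhds_unique (hu _) h2
  -- local boundedness of u
  have hu_bdd : ∀ R' : ℝ, ∃ M : ℝ, 0 ≤ M ∧ ∀ h ∈ bdd p q R', ‖u h‖ ≤ M := by
    intro R'
    rcases le_or_gt 0 R' with hR' | hR'
    · obtain ⟨C, hC0, hC⟩ := hcons R' hR'
      refine ⟨(R' * C) * ‖ep‖ + 2 * (R' * C2 * ‖ep‖), by positivity, fun h hh => ?_⟩
      refine (hu0 h).trans ?_
      obtain ⟨E, hE, e⟩ := hC 1 h hh
      have e8 : ((1 : Γ) : SOone p × SOone q) * h = h := one_mul h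
      rw [e8, hc1, Matrix.zero_mul, zero_add] at e
      have h1 : ‖F h‖ ≤ R' * C := by
        rw [e]
        refine (Matrix.linfty_opNorm_mul _ _).trans ?_
        have := hh.2
        gcongr
      have h2 := hh.2
      gcongr
    · refine ⟨0, le_rfl, fun h hh => ?_⟩
      have := (norm_nonneg _).trans hh.1
      linarith
  -- preservation of linear relations
  let Φ : (SOone p →₀ ℝ) →ₗ[ℝ] (Fin (p + 1) → ℝ) :=
    Finsupp.linearCombination ℝ (fun k : SOone p => mat k *ᵥ ep)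
  let U : (SOone p →₀ ℝ) → SOone p × SOone q → (Fin (q + 1) → ℝ) := fun x h =>
    Finsupp.linearCombination ℝ (fun k : SOone p => u (h * (k, 1))) x
  have hU_left : ∀ x, Φ x = 0 → ∀ (γ : Γ) h, U x (γ.1 * h) = mat γ.1.2 *ᵥ U x h := by
    intro x hx γ h
    change Finsupp.linearCombination ℝ (fun k : SOone p => u (γ.1 * h * (k, 1))) x =
      mat γ.1.2 *ᵥ Finsupp.linearCombination ℝ (fun k : SOone p => u (h * (k, 1))) x
    have e9 : (fun k : SOone p => u (γ.1 * h * (k, 1))) =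
        fun k => (Matrix.mulVecLin (mat γ.1.2)) (u (h * (k, 1))) +
          (Matrix.mulVecLin (c γ * mat h.1)) (mat k *ᵥ ep) := by
      funext k
      rw [mul_assoc, hu_left]
      simp only [Matrix.mulVecLin_apply]
      congr 1
      have : mat (h * (k, 1)).1 = mat h.1 * mat k := rfl
      rw [this, ← Matrix.mul_assoc, ← Matrix.mulVec_mulVec]
    rw [e9]
    have e10 : ∀ (f g : SOone p → (Fin (q + 1) → ℝ)),
        Finsupp.linearCombination ℝ (fun k => f k + g k) x =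
        Finsupp.linearCombination ℝ f x + Finsupp.linearCombination ℝ g x := by
      intro f g
      simp [Finsupp.linearCombination_apply, Finsupp.sum, smul_add, Finset.sum_add_distrib]
    rw [e10]
    have e11 : Finsupp.linearCombination ℝ
        (fun k : SOone p => (Matrix.mulVecLin (c γ * mat h.1)) (mat k *ᵥ ep)) x = 0 := by
      have h13 := (Matrix.mulVecLin (c γ * mat h.1)).map_finsupp_linearCombination
        (g := fun k : SOone p => mat k *ᵥ ep) (l := x)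
      have h14 : Finsupp.linearCombination ℝ (fun k : SOone p => mat k *ᵥ ep) x = 0 := hx
      rw [h14, map_zero] at h13
      exact h13.symm
    have e12 : Finsupp.linearCombination ℝ
        (fun k : SOone p => (Matrix.mulVecLin (mat γ.1.2)) (u (h * (k, 1)))) x =
        (Matrix.mulVecLin (mat γ.1.2))
          (Finsupp.linearCombination ℝ (fun k : SOone p => u (h * (k, 1))) x) :=
      ((Matrix.mulVecLin (mat γ.1.2)).map_finsupp_linearCombination
        (g := fun k : SOone p => u (h * (k, 1))) (l := x)).symm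
    rw [e11, e12, add_zero, Matrix.mulVecLin_apply]
  have hU_right : ∀ x h (g : SOone q), U x (h * (1, g)) = U x h := by
    intro x h g
    change Finsupp.linearCombination ℝ (fun k : SOone p => u (h * (1, g) * (k, 1))) x =
      Finsupp.linearCombination ℝ (fun k : SOone p => u (h * (k, 1))) x
    congr 2
    funext k
    have : h * (1, g) * (k, 1) = h * (k, 1) * (1, g) := by
      rw [mul_assoc, mul_assoc]; simp
    rw [this, hu_right]
  have hU_bdd : ∀ x, ∃ M : ℝ, 0 ≤ M ∧ ∀ h ∈ bdd p q R, ‖U x h‖ ≤ M := by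
    intro x
    have hk : ∀ k : SOone p, ∃ M : ℝ, 0 ≤ M ∧ ∀ h ∈ bdd p q R, ‖u (h * (k, 1))‖ ≤ M := by
      intro k
      obtain ⟨M, hM0, hM⟩ := hu_bdd (R * max ‖mat k‖ ‖mat (1 : SOone q)‖)
      exact ⟨M, hM0, fun h hh => hM _ (bdd_mul (by linarith) hh ⟨le_max_left _ _, le_max_right _ _⟩)⟩
    choose M hM0 hM using hk
    refine ⟨∑ k ∈ x.support, |x k| * M k, Finset.sum_nonneg fun k _ =>
      mul_nonneg (abs_nonneg _) (hM0 k), fun h hh => ?_⟩
    change ‖Finsupp.linearCombination ℝ (fun k : SOone p => u (h * (k, 1))) x‖ ≤ _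
    rw [Finsupp.linearCombination_apply, Finsupp.sum]
    refine (norm_sum_le _ _).trans (Finset.sum_le_sum fun k _ => ?_)
    rw [norm_smul, Real.norm_eq_abs]
    have := hM k h hh
    gcongr
  have hU_zero : ∀ x, Φ x = 0 → ∀ h, U x h = 0 := by
    intro x hx h
    obtain ⟨M, hM0, hM⟩ := hU_bdd x
    have hall : ∀ h' : SOone p × SOone q, ‖mat (h'⁻¹).2 *ᵥ U x h'‖ ≤ (N * R) * M := by
      intro h'
      have e14 : U x h' = mat (gam h').1.2 *ᵥ U x (kk h') := by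
        conv_lhs => rw [hdec h']
        exact hU_left x hx _ _
      have e15 : mat (h'⁻¹).2 *ᵥ U x h' = mat ((kk h')⁻¹).2 *ᵥ U x (kk h') := by
        rw [e14, Matrix.mulVec_mulVec, ← mat_mul]
        congr 2
        have h16 : (h'⁻¹).2 = ((kk h')⁻¹ * ((gam h').1)⁻¹).2 := by
          conv_lhs => rw [hdec h', _root_.mul_inv_rev]
        rw [h16, Prod.snd_mul, mul_assoc, Prod.snd_inv (gam h').1, inv_mul_cancel, mul_one]
      rw [e15]
      calc ‖mat ((kk h')⁻¹).2 *ᵥ U x (kk h')‖ ≤ ‖mat ((kk h')⁻¹).2‖ * ‖U x (kk h')‖ :=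
            Matrix.linfty_opNorm_mulVec _ _
        _ ≤ (N * R) * M := by
            have h1 := (bdd_inv (hkk h')).2
            have h2 := hM _ (hkk h')
            gcongr
    have hw0 : mat (h⁻¹).2 *ᵥ U x h = 0 := by
      apply eq_zero_of_bounded_orbit hq _ ((N * R) * M)
      intro g
      have h3 := hall (h * (1, g⁻¹))
      rw [hU_right] at h3
      have h4 : (h * ((1 : SOone p), g⁻¹))⁻¹.2 = g * (h⁻¹).2 := by
        simp
      rw [h4, mat_mul, ← Matrix.mulVec_mulVec] at h3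
      exact h3
    have h5 : mat h.2 *ᵥ (mat (h⁻¹).2 *ᵥ U x h) = U x h := by
      rw [Matrix.mulVec_mulVec, ← mat_mul]
      have : h.2 * (h⁻¹).2 = 1 := by simp
      rw [this, mat_one, Matrix.one_mulVec]
    rw [← h5, hw0, Matrix.mulVec_zero]
  -- the linear map
  have hΦsurj : Function.Surjective Φ := by
    rw [← LinearMap.range_eq_top, Finsupp.range_linearCombination]
    exact span_null hp
  obtain ⟨s, hs⟩ := Φ.exists_rightInverse_of_surjective (LinearMap.range_eq_top.mpr hΦsurj)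
  let Ψ : (SOone p →₀ ℝ) →ₗ[ℝ] (Fin (q + 1) → ℝ) :=
    Finsupp.linearCombination ℝ (fun k : SOone p => u (k, 1))
  have hΨ : ∀ x, Φ x = 0 → Ψ x = 0 := by
    intro x hx
    have h6 := hU_zero x hx 1
    have h7 : U x 1 = Ψ x := by
      change Finsupp.linearCombination ℝ (fun k : SOone p => u (1 * (k, 1))) x = _
      simp only [one_mul]; rfl
    rw [← h7, h6]
  set T : Matrix (Fin (q + 1)) (Fin (p + 1)) ℝ := LinearMap.toMatrix' (Ψ ∘ₗ s) with hT
  have hTk : ∀ k : SOone p, T *ᵥ (mat k *ᵥ ep) = u (k, 1) := by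
    intro k
    have h8 : T *ᵥ (mat k *ᵥ ep) = Ψ (s (mat k *ᵥ ep)) := by
      rw [hT, ← Matrix.toLin'_apply, Matrix.toLin'_toMatrix']; rfl
    have h9 : Φ (Finsupp.single k 1) = mat k *ᵥ ep := by
      simp [Φ, Finsupp.linearCombination_single]
    have h10 : Φ (s (mat k *ᵥ ep) - Finsupp.single k 1) = 0 := by
      rw [map_sub, h9]
      have := LinearMap.congr_fun hs (mat k *ᵥ ep)
      simp only [LinearMap.comp_apply, LinearMap.id_apply] at this
      rw [this, sub_self]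
    have h11 := hΨ _ h10
    rw [map_sub, sub_eq_zero] at h11
    rw [h8, h11]
    simp [Ψ, Finsupp.linearCombination_single]
  have hu_gen : ∀ h : SOone p × SOone q, u h = T *ᵥ (mat h.1 *ᵥ ep) := by
    intro h
    rw [hTk]
    have : h = (h.1, 1) * (1, h.2) := by simp
    conv_lhs => rw [this, hu_right]
  refine ⟨T, fun γ => ?_⟩
  have hfinal : ∀ k : SOone p, (c γ) *ᵥ (mat k *ᵥ ep) =
      (T * mat γ.1.1 - mat γ.1.2 * T) *ᵥ (mat k *ᵥ ep) := by
    intro k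
    have h12 := hu_left γ (k, 1)
    rw [hu_gen, hu_gen] at h12
    have e16 : mat (γ.1 * (k, (1 : SOone q))).1 = mat γ.1.1 * mat k := rfl
    have e17 : mat ((k, (1 : SOone q)) : SOone p × SOone q).1 = mat k := rfl
    rw [e16, e17] at h12
    have h13 : T *ᵥ ((mat γ.1.1 * mat k) *ᵥ ep) = (T * mat γ.1.1) *ᵥ (mat k *ᵥ ep) := by
      simp only [Matrix.mulVec_mulVec, Matrix.mul_assoc]
    have h14 : mat γ.1.2 *ᵥ (T *ᵥ (mat k *ᵥ ep)) = (mat γ.1.2 * T) *ᵥ (mat k *ᵥ ep) := by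
      simp only [Matrix.mulVec_mulVec, Matrix.mul_assoc]
    have h15 : (c γ * mat k) *ᵥ ep = c γ *ᵥ (mat k *ᵥ ep) := by
      simp only [Matrix.mulVec_mulVec]
    rw [h13, h14, h15] at h12
    rw [Matrix.sub_mulVec, h12]
    abel
  have hmaps : Matrix.mulVecLin (c γ) = Matrix.mulVecLin (T * mat γ.1.1 - mat γ.1.2 * T) := by
    apply LinearMap.ext_on_range (v := fun k : SOone p => mat k *ᵥ ep) (span_null hp)
    intro k
    exact hfinal k
  have h16 := congrArg LinearMap.toMatrix' hmaps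
  rwa [← Matrix.toLin'_apply', ← Matrix.toLin'_apply', LinearMap.toMatrix'_toLin',
    LinearMap.toMatrix'_toLin'] at h16

end Pool.Agent.Lib.MPa37b3a
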